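import Pool.Agent.Lib_MP_a95293_tp.Exc

/-!
# Power saving for the exceptional pairs
-/

set_option autoImplicit false

namespace Pool.MP_a95293_nt.TP

open Finset Pool.MP_a95293_nt.RC

/-- powers of the logarithm are small -/
theorem log_pow_le (A : ℕ) {δ : ℝ} (hδ : 0 < δ) (C : ℝ) :
    ∀ᶠ x : ℝ in Filter.atTop, C * (1 + Real.log x) ^ A ≤ x ^ δ := by
  set s : ℝ := δ / (2 * (A + 1)) with hs
  have hA : (0 : ℝ) < 2 * (A + 1) := by positivity
  have hs0 : 0 < s := div_pos hδ hA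
  have hsA : s * A ≤ δ / 2 := by
    have h1 : s * (A + 1) = δ / 2 := by
      rw [hs]
      field_simp
    nlinarith
  have h1 : ∀ᶠ x : ℝ in Filter.atTop, |C| * (1 + 1 / s) ^ A ≤ x ^ (δ / 2) :=
    (tendsto_rpow_atTop (by linarith : 0 < δ / 2)).eventually_ge_atTop _
  filter_upwards [h1, Filter.eventually_ge_atTop (1 : ℝ)] with x hx hx1
  have hx0 : 0 < x := by linarith
  have h2 : Real.log x ≤ x ^ s / s := Real.log_le_rpow_div hx0.le hs0
  have h3 : 1 ≤ x ^ s := Real.one_le_rpow hx1 hs0.le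
  have h4 : 1 + Real.log x ≤ (1 + 1 / s) * x ^ s := by
    have e1 : (1 + 1 / s) * x ^ s = x ^ s + x ^ s / s := by ring
    rw [e1]
    linarith
  have h5 : 0 ≤ 1 + Real.log x := by
    have := Real.log_nonneg hx1
    linarith
  have h6 : (1 + Real.log x) ^ A ≤ (1 + 1 / s) ^ A * x ^ (δ / 2) := by
    refine (pow_le_pow_left₀ h5 h4 A).trans ?_
    rw [mul_pow]
    apply mul_le_mul_of_nonneg_left _ (by positivity)
    rw [← Real.rpow_natCast (x ^ s) A, ← Real.rpow_mul hx0.le]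
    exact Real.rpow_le_rpow_of_exponent_le hx1 hsA
  calc C * (1 + Real.log x) ^ A ≤ |C| * (1 + Real.log x) ^ A :=
        mul_le_mul_of_nonneg_right (le_abs_self C) (pow_nonneg h5 A)
    _ ≤ |C| * ((1 + 1 / s) ^ A * x ^ (δ / 2)) := mul_le_mul_of_nonneg_left h6 (abs_nonneg C)
    _ = (|C| * (1 + 1 / s) ^ A) * x ^ (δ / 2) := by ring
    _ ≤ x ^ (δ / 2) * x ^ (δ / 2) := mul_le_mul_of_nonneg_right hx (Real.rpow_nonneg hx0.le _)
    _ = x ^ δ := by
        rw [← Real.rpow_add hx0]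
        congr 1
        ring

/-- the final inequality -/
theorem asy (A : ℕ) (C0 : ℝ) {δ : ℝ} (hδ : 0 < δ) (hδ1 : 3 * δ < 1) :
    ∃ X₀ : ℕ, ∀ X : ℕ, X₀ ≤ X → 1 ≤ ⌊(X : ℝ) ^ (1 - 3 * δ)⌋₊ ∧
      C0 + Bd A ((X : ℝ) ^ δ) ⌊(X : ℝ) ^ (1 - 3 * δ)⌋₊ ≤ (X : ℝ) ^ (1 - δ) := by
  have h1 := log_pow_le A hδ (12 * A)
  have h2 : ∀ᶠ x : ℝ in Filter.atTop, 2 * C0 ≤ x ^ (1 - δ) :=
    (tendsto_rpow_atTop (by linarith : 0 < 1 - δ)).eventually_ge_atTop _
  obtain ⟨X₀, hX₀⟩ := Filter.eventually_atTop.1 (tendsto_natCast_atTop_atTop.eventually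
    ((h1.and h2).and (Filter.eventually_ge_atTop (1 : ℝ))))
  refine ⟨X₀, fun X hX => ?_⟩
  obtain ⟨⟨g1, g2⟩, g3⟩ := hX₀ X hX
  set x : ℝ := (X : ℝ) with hx
  have hx0 : 0 < x := by linarith
  set N := ⌊x ^ (1 - 3 * δ)⌋₊ with hN
  have hp1 : 1 ≤ x ^ (1 - 3 * δ) := Real.one_le_rpow g3 (by linarith)
  have hN1 : 1 ≤ N := Nat.le_floor (by exact_mod_cast hp1)
  refine ⟨hN1, ?_⟩
  have hNr : (N : ℝ) ≤ x ^ (1 - 3 * δ) := Nat.floor_le (by linarith)
  have hN1r : (1 : ℝ) ≤ N := by exact_mod_cast hN1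
  have hNx : (N : ℝ) ≤ x := by
    refine hNr.trans ?_
    calc x ^ (1 - 3 * δ) ≤ x ^ (1 : ℝ) := Real.rpow_le_rpow_of_exponent_le g3 (by linarith)
      _ = x := Real.rpow_one x
  have hlog : Real.log N ≤ Real.log x := Real.log_le_log (by linarith) hNx
  have hlog0 : 0 ≤ Real.log N := Real.log_nonneg hN1r
  have hxd : 1 ≤ x ^ δ := Real.one_le_rpow g3 hδ.le
  have hpow : (1 + Real.log N) ^ A ≤ (1 + Real.log x) ^ A := pow_le_pow_left₀ (by linarith) (by linarith) A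
  have hpow0 : 0 ≤ (1 + Real.log (N : ℝ)) ^ A := pow_nonneg (by linarith) A
  have hBd : Bd A (x ^ δ) N ≤ x ^ (1 - δ) / 2 := by
    unfold Bd
    have e1 : (1 + 5 * x ^ δ) ≤ 6 * x ^ δ := by linarith
    have e2 : (N : ℝ) * (1 + Real.log N) ^ A ≤ x ^ (1 - 3 * δ) * (1 + Real.log x) ^ A :=
      mul_le_mul hNr hpow hpow0 (by linarith)
    have e3 : 0 ≤ (N : ℝ) * (1 + Real.log N) ^ A := mul_nonneg (Nat.cast_nonneg _) hpow0
    have hA0 : (0 : ℝ) ≤ A := Nat.cast_nonneg _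
    calc (A : ℝ) * (1 + 5 * x ^ δ) * (N * (1 + Real.log N) ^ A) ≤
          A * (6 * x ^ δ) * (x ^ (1 - 3 * δ) * (1 + Real.log x) ^ A) := by
          apply mul_le_mul _ e2 e3 (by positivity)
          exact mul_le_mul_of_nonneg_left e1 hA0
      _ = (12 * A * (1 + Real.log x) ^ A) * (x ^ δ * x ^ (1 - 3 * δ)) / 2 := by ring
      _ ≤ x ^ δ * (x ^ δ * x ^ (1 - 3 * δ)) / 2 := by
          apply div_le_div_of_nonneg_right _ (by norm_num)
          exact mul_le_mul_of_nonneg_right g1 (by positivity)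
      _ = x ^ (1 - δ) / 2 := by
          rw [← Real.rpow_add hx0, ← Real.rpow_add hx0]
          congr 2
          ring
  linarith

/-- **Exceptional pairs, power saving.** -/
theorem exc_pairs {η : ℝ} (hη0 : 0 ≤ η) (hη : η < 1) (K : ℕ) :
    ∃ c : ℝ, 0 < c ∧ 3 * c < 1 ∧ ∀ ε : ℝ, 0 < ε → ε ≤ 1 → ∃ X₀ : ℕ, ∀ X : ℕ, X₀ ≤ X →
      ∀ Z : Finset (ℕ × ℕ),
      (∀ z ∈ Z, Prm z ∧ rd (pr3 z) ≤ X ∧ Real.log (z.1 + z.2 : ℕ) ≤ Real.exp ((X : ℝ) ^ (c * ε)) ∧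
        (X : ℝ) ^ ε < ∏ p ∈ bad η K z, (p : ℝ)) → (Z.card : ℝ) ≤ (X : ℝ) ^ (1 - c * ε) := by
  classical
  set θ : ℝ := (1 + η) / 2 with hθ
  have hθ1 : θ < 1 := by linarith
  have hθ0 : 0 ≤ θ := by linarith
  have hηθ : η < θ := by linarith
  set J : ℕ := ⌈4 / (1 - θ)⌉₊ with hJ
  set k : ℕ := ⌈5 / (1 - θ)⌉₊ with hk
  have h1θ : 0 < 1 - θ := by linarith
  have hJr : 4 / (1 - θ) ≤ J := Nat.le_ceil _
  have hkr : 5 / (1 - θ) ≤ k := Nat.le_ceil _
  have hJ0 : (0 : ℝ) < J := lt_of_lt_of_le (by positivity) hJr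
  have hk0 : (0 : ℝ) < k := lt_of_lt_of_le (by positivity) hkr
  have hJ1 : 1 ≤ J := by exact_mod_cast hJ0
  have hk1 : 1 ≤ k := by exact_mod_cast hk0
  have hF : 5 / 2 ≤ k * (1 - θ - 2 / J) := by
    have e1 : 2 / (J : ℝ) ≤ (1 - θ) / 2 := by
      rw [div_le_div_iff₀ hJ0 (by norm_num)]
      rw [div_le_iff₀ h1θ] at hJr
      linarith
    rw [div_le_iff₀ h1θ] at hkr
    have e2 : (k : ℝ) * ((1 - θ) / 2) ≤ k * (1 - θ - 2 / J) :=
      mul_le_mul_of_nonneg_left (by linarith) hk0.le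
    linarith
  set q : ℝ := 1 / (θ - η) + 1 with hq
  have hq0 : 0 < q := by
    have : 0 < θ - η := by linarith
    positivity
  have hK0 : (0 : ℝ) < 3 * (K + 1) := by positivity
  have hq1 : 1 ≤ q := by
    have : 0 < θ - η := by linarith
    have h2 : 0 < 1 / (θ - η) := by positivity
    linarith
  set c : ℝ := 1 / (9 * (K + 1) * q) with hc
  have hden : 0 < 9 * ((K : ℝ) + 1) * q := by positivity
  have hc0 : 0 < c := by positivity
  have hc1 : 3 * c < 1 := by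
    have h1 : 9 * ((K : ℝ) + 1) * 1 ≤ 9 * ((K : ℝ) + 1) * q := mul_le_mul_of_nonneg_left hq1 (by positivity)
    have h2 : (0 : ℝ) ≤ K := Nat.cast_nonneg _
    have h3 : c * (9 * ((K : ℝ) + 1) * q) = 1 := by
      rw [hc]
      field_simp
    nlinarith
  refine ⟨c, hc0, hc1, fun ε hε hε1 => ?_⟩
  set δ : ℝ := c * ε with hδ
  have hδ0 : 0 < δ := mul_pos hc0 hε
  have hδ1 : 3 * δ < 1 := by
    have h1 : c * ε ≤ c * 1 := mul_le_mul_of_nonneg_left hε1 hc0.le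
    linarith
  have ht : 3 * δ * q ≤ ε / (3 * (K + 1)) := by
    apply le_of_eq
    rw [hδ, hc]
    field_simp
    norm_num
  set L₀ : ℝ := J * Real.log 2 + 12 * Real.log 2 + 4 * k * Real.log k + 4 * K * Real.log K + 1 with hL₀
  have hlog2 : 0 ≤ Real.log 2 := Real.log_nonneg (by norm_num)
  have hlogk : 0 ≤ Real.log k := Real.log_natCast_nonneg k
  have hlogK : 0 ≤ Real.log K := Real.log_natCast_nonneg K
  have b1 : 0 ≤ J * Real.log 2 := by positivity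
  have b2 : 0 ≤ 4 * k * Real.log k := by positivity
  have b3 : 0 ≤ 4 * K * Real.log K := by positivity
  set n0 : ℕ := ⌊Real.exp L₀⌋₊ + 1 with hn0
  obtain ⟨X₀, hX₀⟩ := asy (AA k J K) ((n0 : ℝ) * n0) hδ0 hδ1
  refine ⟨max X₀ 1, fun X hX Z hZ => ?_⟩
  obtain ⟨hN1, hfin⟩ := hX₀ X ((le_max_left _ _).trans hX)
  have hX1 : (1 : ℝ) ≤ (X : ℝ) := by exact_mod_cast (le_max_right X₀ 1).trans hX
  set Y : ℝ := (X : ℝ) ^ δ with hY
  have hY0 : 0 ≤ Y := Real.rpow_nonneg (by linarith) _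
  set Zs := Z.filter fun z => Real.log (z.1 + z.2 : ℕ) < L₀ with hZs
  set Zl := Z.filter fun z => ¬ Real.log (z.1 + z.2 : ℕ) < L₀ with hZl
  have hsplit : Zs.card + Zl.card = Z.card := card_filter_add_card_filter_not _
  have hs : (Zs.card : ℝ) ≤ (n0 : ℝ) * n0 := by
    have h1 : Zs ⊆ range n0 ×ˢ range n0 := by
      intro z hz
      rw [hZs, mem_filter] at hz
      obtain ⟨hP, _⟩ := hZ z hz.1
      have hc0 : (0 : ℝ) < ((z.1 + z.2 : ℕ) : ℝ) := by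
        have := hP.1
        exact_mod_cast (by omega : 0 < z.1 + z.2)
      have h2 : ((z.1 + z.2 : ℕ) : ℝ) ≤ Real.exp L₀ := by
        rw [← Real.log_le_iff_le_exp hc0]
        exact hz.2.le
      have h3 : z.1 + z.2 ≤ ⌊Real.exp L₀⌋₊ := Nat.le_floor h2
      rw [mem_product, mem_range, mem_range]
      omega
    have h2 := card_le_card h1
    rw [card_product, card_range] at h2
    exact_mod_cast h2
  have hl : (Zl.card : ℝ) ≤ Bd (AA k J K) Y ⌊(X : ℝ) ^ (1 - 3 * δ)⌋₊ := by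
    apply fmls_card hk1 hJ1 hF hY0 hN1 Zl
    intro z hz
    rw [hZl, mem_filter, not_lt] at hz
    obtain ⟨hz, hL⟩ := hz
    obtain ⟨hP, hR, hup, hbad⟩ := hZ z hz
    refine fml_of_bad (x := (X : ℝ)) (δ := 3 * δ) (η := η) (ε := ε) hP hR rfl hX1 rfl ?_ ?_ ?_ ?_ ?_ hup hηθ hθ0
      (by linarith) ht hbad
    · linarith
    · linarith
    · have e0 : ((12 : ℕ) : ℝ) = 12 := by norm_num
      rw [e0]
      linarith
    · intro m hm
      obtain ⟨hm1, hm2⟩ := mem_Icc.1 hm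
      have e1 : (m : ℝ) ≤ K := by exact_mod_cast hm2
      have e2 : Real.log m ≤ Real.log K :=
        Real.log_le_log (by exact_mod_cast (by omega : 0 < m)) e1
      have e3 : 0 ≤ Real.log m := Real.log_natCast_nonneg m
      have e4 : (m : ℝ) * Real.log m ≤ K * Real.log K := mul_le_mul e1 e2 e3 (Nat.cast_nonneg _)
      linarith
    · linarith
  have hc : (Z.card : ℝ) = Zs.card + Zl.card := by
    rw [← hsplit]
    push_cast
    ring
  rw [hc]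
  linarith

end Pool.MP_a95293_nt.TP
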