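import Mathlib

/-!
# The greedy lemma
-/

set_option autoImplicit false

namespace Pool.MP_a95293_nt.TP

open Finset

/-- a subset of weight in `(T - a, T]` -/
private theorem Greedy_max (N : Finset ℕ) (w : ℕ → ℝ) {a T : ℝ} (hwa : ∀ p ∈ N, w p ≤ a)
    (hT : 0 ≤ T) (hN : T < ∑ p ∈ N, w p) :
    ∃ D ⊆ N, ∑ p ∈ D, w p ≤ T ∧ T - a < ∑ p ∈ D, w p := by
  classical
  have hne : (N.powerset.filter fun D => ∑ p ∈ D, w p ≤ T).Nonempty :=
    ⟨∅, by
      rw [mem_filter]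
      exact ⟨empty_mem_powerset N, by simpa using hT⟩⟩
  obtain ⟨D, hD, hmax⟩ := exists_max_image _ (fun D : Finset ℕ => D.card) hne
  rw [mem_filter, mem_powerset] at hD
  refine ⟨D, hD.1, hD.2, ?_⟩
  have hne : D ≠ N := by
    rintro rfl
    linarith [hD.2]
  obtain ⟨p, hpN, hpD⟩ := exists_of_ssubset (lt_of_le_of_ne hD.1 hne)
  by_contra hc
  push Not at hc
  have h1 : insert p D ∈ N.powerset.filter fun D => ∑ p ∈ D, w p ≤ T := by
    rw [mem_filter, mem_powerset]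
    refine ⟨insert_subset hpN hD.1, ?_⟩
    rw [sum_insert hpD]
    have := hwa p hpN
    linarith
  have h2 := hmax _ h1
  rw [card_insert_of_notMem hpD] at h2
  omega

/-- **The greedy lemma.** -/
theorem greedy {a T : ℝ} (haT : a < T) (hT : 0 ≤ T) (w lam : ℕ → ℝ) :
    ∀ n : ℕ, ∀ N : Finset ℕ, N.card = n → (∀ p ∈ N, 0 ≤ w p) → (∀ p ∈ N, w p ≤ a) →
      (∀ p ∈ N, 0 ≤ lam p) →
      ∃ D ⊆ N, ∑ p ∈ D, w p ≤ T ∧
        ∑ p ∈ N, lam p ≤ ((∑ p ∈ N, w p) / (T - a) + 1) * ∑ p ∈ D, lam p := by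
  classical
  have hTa : 0 < T - a := by linarith
  intro n
  induction n using Nat.strong_induction_on with
  | _ n ih =>
    intro N hn hw0 hwa hl
    rcases le_or_gt (∑ p ∈ N, w p) T with h | h
    · refine ⟨N, Subset.refl _, h, ?_⟩
      have h1 : 0 ≤ (∑ p ∈ N, w p) / (T - a) := div_nonneg (sum_nonneg hw0) hTa.le
      have h2 : 0 ≤ ∑ p ∈ N, lam p := sum_nonneg hl
      nlinarith
    · obtain ⟨D, hDN, hD1, hD2⟩ := Greedy_max N w hwa hT h
      have hDne : D.Nonempty := by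
        rw [nonempty_iff_ne_empty]
        rintro rfl
        rw [sum_empty] at hD2
        linarith
      have hlt : (N \ D).card < n := by
        rw [← hn, card_sdiff_of_subset hDN]
        have h3 := card_pos.2 hDne
        have h4 := card_le_card hDN
        omega
      obtain ⟨D', hD'N, hD'1, hD'2⟩ := ih _ hlt (N \ D) rfl (fun p hp => hw0 p (sdiff_subset hp))
        (fun p hp => hwa p (sdiff_subset hp)) (fun p hp => hl p (sdiff_subset hp))
      have e1 : ∑ p ∈ N, w p = ∑ p ∈ N \ D, w p + ∑ p ∈ D, w p := (sum_sdiff hDN).symm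
      have e2 : ∑ p ∈ N, lam p = ∑ p ∈ N \ D, lam p + ∑ p ∈ D, lam p := (sum_sdiff hDN).symm
      have h5 : (∑ p ∈ N \ D, w p) / (T - a) + 1 ≤ (∑ p ∈ N, w p) / (T - a) := by
        rw [div_add_one hTa.ne']
        apply div_le_div_of_nonneg_right _ hTa.le
        linarith
      have h0 : 0 ≤ (∑ p ∈ N \ D, w p) / (T - a) :=
        div_nonneg (sum_nonneg fun p hp => hw0 p (sdiff_subset hp)) hTa.le
      have hn1 : 0 ≤ ∑ p ∈ D, lam p := sum_nonneg fun p hp => hl p (hDN hp)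
      have hn2 : 0 ≤ ∑ p ∈ D', lam p := sum_nonneg fun p hp => hl p (sdiff_subset (hD'N hp))
      rcases le_total (∑ p ∈ D, lam p) (∑ p ∈ D', lam p) with hc | hc
      · refine ⟨D', hD'N.trans sdiff_subset, hD'1, ?_⟩
        rw [e2]
        calc ∑ p ∈ N \ D, lam p + ∑ p ∈ D, lam p ≤
              ((∑ p ∈ N \ D, w p) / (T - a) + 1) * ∑ p ∈ D', lam p + ∑ p ∈ D', lam p :=
              add_le_add hD'2 hc
          _ = ((∑ p ∈ N \ D, w p) / (T - a) + 1 + 1) * ∑ p ∈ D', lam p := by ring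
          _ ≤ ((∑ p ∈ N, w p) / (T - a) + 1) * ∑ p ∈ D', lam p :=
              mul_le_mul_of_nonneg_right (by linarith) hn2
      · refine ⟨D, hDN, hD1, ?_⟩
        rw [e2]
        calc ∑ p ∈ N \ D, lam p + ∑ p ∈ D, lam p ≤
              ((∑ p ∈ N \ D, w p) / (T - a) + 1) * ∑ p ∈ D', lam p + ∑ p ∈ D, lam p :=
              add_le_add hD'2 le_rfl
          _ ≤ ((∑ p ∈ N \ D, w p) / (T - a) + 1) * ∑ p ∈ D, lam p + ∑ p ∈ D, lam p :=
              add_le_add (mul_le_mul_of_nonneg_left hc (by linarith)) le_rfl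
          _ = ((∑ p ∈ N \ D, w p) / (T - a) + 1 + 1) * ∑ p ∈ D, lam p := by ring
          _ ≤ ((∑ p ∈ N, w p) / (T - a) + 1) * ∑ p ∈ D, lam p :=
              mul_le_mul_of_nonneg_right (by linarith) hn1

end Pool.MP_a95293_nt.TP
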