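import Pool.Agent.Lib_MP_a95293_tp.Fam
import Pool.Agent.Lib_MP_a95293_tp.Greedy

/-!
# The exceptional families
-/

set_option autoImplicit false

namespace Pool.MP_a95293_nt.TP

open Finset Pool.MP_a95293_nt.RC

/-- the logarithm as a sum -/
theorem log_cfv {z : ℕ × ℕ} (hz : Prm z) (i : Fin 3) :
    Real.log (cfv i z) = ∑ p ∈ (pr3 z).primeFactors, ((cfv i z).factorization p : ℝ) * Real.log p := by
  classical
  have h0 := (cfv_pos hz i).ne'
  have h1 : (cfv i z : ℝ) = ∏ p ∈ (cfv i z).primeFactors, (p : ℝ) ^ (cfv i z).factorization p := by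
    conv_lhs => rw [← Nat.prod_factorization_pow_eq_self h0]
    rw [Finsupp.prod, Nat.support_factorization]
    push_cast
    rfl
  rw [h1, Real.log_prod fun p hp => ?_]
  · have h2 : (cfv i z).primeFactors ⊆ (pr3 z).primeFactors := fun p hp => (mem_pr3 hz).2 ⟨i, hp⟩
    rw [← sum_subset h2]
    · refine sum_congr rfl fun p _ => ?_
      rw [Real.log_pow]
    · intro p _ hp
      rw [← Nat.support_factorization, Finsupp.mem_support_iff, not_not] at hp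
      rw [hp, Nat.cast_zero, zero_mul]
  · have := (Nat.prime_of_mem_primeFactors hp).pos
    positivity

/-- exponents of a prime that does not occur -/
theorem fact_zero {z : ℕ × ℕ} {j : Fin 3} {p : ℕ} (hp : p ∉ (cfv j z).primeFactors) :
    (cfv j z).factorization p = 0 := by
  rwa [← Nat.support_factorization, Finsupp.mem_support_iff, not_not] at hp

/-- a prime divides at most one of the three numbers -/
theorem only_one {z : ℕ × ℕ} (hz : Prm z) {i j : Fin 3} (hij : i ≠ j) {p : ℕ}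
    (hp : p ∈ (cfv i z).primeFactors) : p ∉ (cfv j z).primeFactors := fun h =>
  disjoint_left.1 (cfv_cop hz hij).disjoint_primeFactors hp h

/-- the hypotheses for the primes outside `D` -/
theorem hyp_of {k J : ℕ} {θ Y : ℝ} {z : ℕ × ℕ} (hz : Prm z) (i : Fin 3) {D : Finset ℕ}
    (hD0 : D ⊆ (pr3 z).primeFactors) (l1 : J * Real.log 2 ≤ Real.log (z.1 + z.2 : ℕ))
    (l2 : 4 * k * Real.log k ≤ Real.log (z.1 + z.2 : ℕ)) (l3 : 1 ≤ Real.log (z.1 + z.2 : ℕ))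
    (up : Real.log (z.1 + z.2 : ℕ) ≤ Real.exp Y) (hD : ∀ p ∈ D, ∀ j, j ≠ i → k ∣ (cfv j z).factorization p)
    (hθ : ∑ p ∈ D, ((cfv i z).factorization p : ℝ) * Real.log p ≤ θ * Real.log (z.1 + z.2 : ℕ)) :
    Hyp k J θ Y ((pr3 z).primeFactors \ D) (cfe i) (cfw i z) := by
  classical
  have hout : ∀ j, j ≠ i → ∀ p, p ∉ (pr3 z).primeFactors \ D → k ∣ (cfv j z).factorization p := by
    intro j hj p hp
    by_cases hpD : p ∈ D
    · exact hD p hpD j hj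
    · rw [fact_zero fun h => hp (mem_sdiff.2 ⟨(mem_pr3 hz).2 ⟨j, h⟩, hpD⟩)]
      exact dvd_zero _
  refine ⟨cfw_Gd hz i, ?_, ?_, ?_, ?_, ?_, ?_, ?_⟩
  · rwa [cfw_Ht]
  · rwa [cfw_Ht]
  · rwa [cfw_Ht]
  · rwa [cfw_Ht]
  · intro p hp
    obtain ⟨j, hj, e⟩ := cfw_fst z i
    rw [e]
    exact hout j hj p hp
  · intro p hp
    obtain ⟨j, hj, e⟩ := cfw_snd z i
    rw [e]
    exact hout j hj p hp
  · rw [cfw_Ht, cfw_Vl, log_cfv hz i]
    have h1 := sum_sdiff hD0 (f := fun p => ((cfv i z).factorization p : ℝ) * Real.log p)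
    linarith

/-- the exceptional families -/
def Fml (k J : ℕ) (θ Y : ℝ) (N : ℕ) (i : Fin 3) (z : ℕ × ℕ) : Prop :=
  ∃ P : Finset ℕ, (∀ p ∈ P, p.Prime) ∧ ∏ p ∈ P, p ≤ N ∧ Hyp k J θ Y P (cfe i) (cfw i z)

/-- the known primes have a small product -/
theorem prod_sdiff_le {z : ℕ × ℕ} {X N : ℕ} {x δ : ℝ} (hX : rd (pr3 z) ≤ X) {D : Finset ℕ}
    (hD0 : D ⊆ (pr3 z).primeFactors) (hx : x = (X : ℝ)) (hx1 : 1 ≤ x) (hN : N = ⌊x ^ (1 - δ)⌋₊)
    (hD : δ * Real.log x ≤ ∑ p ∈ D, Real.log p) : ∏ p ∈ (pr3 z).primeFactors \ D, p ≤ N := by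
  classical
  rw [hN]
  apply Nat.le_floor
  have hx0 : 0 < x := by linarith
  have hDp : ∀ p ∈ D, (p : ℝ) ≠ 0 := fun p hp => by
    have := (Nat.prime_of_mem_primeFactors (hD0 hp)).pos
    positivity
  have h1 : ((∏ p ∈ (pr3 z).primeFactors \ D, p : ℕ) : ℝ) * ∏ p ∈ D, (p : ℝ) ≤ x := by
    have h2 : (∏ p ∈ (pr3 z).primeFactors \ D, p) * ∏ p ∈ D, p = rd (pr3 z) := prod_sdiff hD0
    have h3 : (((∏ p ∈ (pr3 z).primeFactors \ D, p) * ∏ p ∈ D, p : ℕ) : ℝ) ≤ (X : ℝ) := by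
      rw [h2]
      exact_mod_cast hX
    rw [hx]
    push_cast at h3 ⊢
    exact h3
  have h4 : x ^ δ ≤ ∏ p ∈ D, (p : ℝ) := by
    rw [← Real.log_prod hDp] at hD
    have h5 : 0 < ∏ p ∈ D, (p : ℝ) := prod_pos fun p hp => by
      have := (Nat.prime_of_mem_primeFactors (hD0 hp)).pos
      positivity
    rw [← Real.log_rpow hx0] at hD
    exact (Real.log_le_log_iff (Real.rpow_pos_of_pos hx0 _) h5).1 hD
  have h6 : 0 < x ^ δ := Real.rpow_pos_of_pos hx0 _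
  rw [Real.rpow_sub hx0, Real.rpow_one, le_div_iff₀ h6]
  refine le_trans ?_ h1
  exact mul_le_mul_of_nonneg_left h4 (Nat.cast_nonneg _)

/-- a term with many primes whose exponent is divisible by `k` -/
theorem fml_k {X N k J : ℕ} {x δ Y : ℝ} {z : ℕ × ℕ} (hz : Prm z) (hX : rd (pr3 z) ≤ X) (hx : x = (X : ℝ))
    (hx1 : 1 ≤ x) (hN : N = ⌊x ^ (1 - δ)⌋₊) (l1 : J * Real.log 2 ≤ Real.log (z.1 + z.2 : ℕ))
    (l2 : 4 * k * Real.log k ≤ Real.log (z.1 + z.2 : ℕ)) (l3 : 1 ≤ Real.log (z.1 + z.2 : ℕ))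
    (up : Real.log (z.1 + z.2 : ℕ) ≤ Real.exp Y) (i : Fin 3) {D : Finset ℕ}
    (hD0 : D ⊆ (cfv i z).primeFactors) (hDk : ∀ p ∈ D, k ∣ (cfv i z).factorization p)
    (hD : δ * Real.log x ≤ ∑ p ∈ D, Real.log p) : ∃ j, Fml k J 0 Y N j z := by
  classical
  obtain ⟨j, hj⟩ : ∃ j : Fin 3, j ≠ i := by
    fin_cases i
    · exact ⟨1, by decide⟩
    · exact ⟨0, by decide⟩
    · exact ⟨0, by decide⟩
  have hD1 : D ⊆ (pr3 z).primeFactors := fun p hp => (mem_pr3 hz).2 ⟨i, hD0 hp⟩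
  refine ⟨j, _, fun p hp => Nat.prime_of_mem_primeFactors (mem_sdiff.1 hp).1,
    prod_sdiff_le hX hD1 hx hx1 hN hD, hyp_of hz j hD1 l1 l2 l3 up ?_ ?_⟩
  · intro p hp m _
    by_cases hm : m = i
    · rw [hm]
      exact hDk p hp
    · rw [fact_zero (only_one hz (Ne.symm hm) (hD0 hp))]
      exact dvd_zero _
  · rw [zero_mul]
    apply le_of_eq
    apply sum_eq_zero
    intro p hp
    rw [fact_zero (only_one hz (Ne.symm hj) (hD0 hp)), Nat.cast_zero, zero_mul]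

/-- a term with many primes of small contribution -/
theorem fml_n {X N k J : ℕ} {x t δ Y η θ : ℝ} {z : ℕ × ℕ} (hz : Prm z) (hX : rd (pr3 z) ≤ X) (hx : x = (X : ℝ))
    (hx1 : 1 ≤ x) (hN : N = ⌊x ^ (1 - δ)⌋₊) (l1 : J * Real.log 2 ≤ Real.log (z.1 + z.2 : ℕ))
    (l2 : 4 * k * Real.log k ≤ Real.log (z.1 + z.2 : ℕ)) (l3 : 1 ≤ Real.log (z.1 + z.2 : ℕ))
    (up : Real.log (z.1 + z.2 : ℕ) ≤ Real.exp Y) (hηθ : η < θ) (hθ0 : 0 ≤ θ) (i : Fin 3) {M : Finset ℕ}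
    (hM0 : M ⊆ (cfv i z).primeFactors)
    (hM : ∀ p ∈ M, ((cfv i z).factorization p : ℝ) * Real.log p ≤ η * Real.log (z.1 + z.2 : ℕ))
    (ht : δ * (1 / (θ - η) + 1) ≤ t) (hMt : t * Real.log x ≤ ∑ p ∈ M, Real.log p) : Fml k J θ Y N i z := by
  classical
  set L := Real.log (z.1 + z.2 : ℕ) with hL
  have hL0 : 0 < L := by linarith
  have hθη : 0 < θ - η := by linarith
  have hlx : 0 ≤ Real.log x := Real.log_nonneg hx1
  obtain ⟨D, hDM, hD1, hD2⟩ := greedy (a := η * L) (T := θ * L) (mul_lt_mul_of_pos_right hηθ hL0)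
    (mul_nonneg hθ0 hL0.le) (fun p => ((cfv i z).factorization p : ℝ) * Real.log p) (fun p => Real.log p)
    M.card M rfl (fun p _ => mul_nonneg (Nat.cast_nonneg _) (Real.log_natCast_nonneg p)) hM
    (fun p _ => Real.log_natCast_nonneg p)
  have hDs : D ⊆ (cfv i z).primeFactors := hDM.trans hM0
  have hD3 : D ⊆ (pr3 z).primeFactors := fun p hp => (mem_pr3 hz).2 ⟨i, hDs hp⟩
  have hw : ∑ p ∈ M, ((cfv i z).factorization p : ℝ) * Real.log p ≤ L := by
    refine (sum_fac_le (cfv i z) (cfv_pos hz i).ne' M).trans ?_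
    exact Real.log_le_log (by exact_mod_cast cfv_pos hz i) (by exact_mod_cast cfv_le z i)
  have hS0 : 0 ≤ ∑ p ∈ D, Real.log (p : ℝ) := sum_nonneg fun p _ => Real.log_natCast_nonneg p
  have hδ : δ * Real.log x ≤ ∑ p ∈ D, Real.log p := by
    have h1 : (∑ p ∈ M, ((cfv i z).factorization p : ℝ) * Real.log p) / (θ * L - η * L) + 1 ≤
        1 / (θ - η) + 1 := by
      have h2 : θ * L - η * L = (θ - η) * L := by ring
      rw [h2]
      have h3 : (∑ p ∈ M, ((cfv i z).factorization p : ℝ) * Real.log p) / ((θ - η) * L) ≤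
          L / ((θ - η) * L) := div_le_div_of_nonneg_right hw (mul_pos hθη hL0).le
      have h4 : L / ((θ - η) * L) = 1 / (θ - η) := by
        field_simp
      linarith
    have h5 : t * Real.log x ≤ (1 / (θ - η) + 1) * ∑ p ∈ D, Real.log (p : ℝ) :=
      (hMt.trans hD2).trans (mul_le_mul_of_nonneg_right h1 hS0)
    have h6 : 0 < 1 / (θ - η) + 1 := by positivity
    have h7 : δ * (1 / (θ - η) + 1) * Real.log x ≤ t * Real.log x := mul_le_mul_of_nonneg_right ht hlx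
    have h8 : (1 / (θ - η) + 1) * (δ * Real.log x) ≤ (1 / (θ - η) + 1) * ∑ p ∈ D, Real.log (p : ℝ) := by
      calc (1 / (θ - η) + 1) * (δ * Real.log x) = δ * (1 / (θ - η) + 1) * Real.log x := by ring
        _ ≤ _ := h7.trans h5
    exact le_of_mul_le_mul_left h8 h6
  refine ⟨_, fun p hp => Nat.prime_of_mem_primeFactors (mem_sdiff.1 hp).1,
    prod_sdiff_le hX hD3 hx hx1 hN hδ, hyp_of hz i hD3 l1 l2 l3 up ?_ hD1⟩
  intro p hp m hm
  rw [fact_zero (only_one hz (Ne.symm hm) (hDs hp))]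
  exact dvd_zero _

end Pool.MP_a95293_nt.TP
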