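import Pool.Agent.Lib_MP_a95293_tp.Cnt

/-!
# The number of pairs with given known primes
-/

set_option autoImplicit false

namespace Pool.MP_a95293_nt.TP

open Finset Pool.MP_a95293_nt.RC

/-- the relative contribution of `p` -/
noncomputable def th (e : Bool) (w : ℕ × ℕ) (p : ℕ) : ℝ :=
  (Vl e w).factorization p * Real.log p / Real.log (Ht e w)

theorem th_nonneg (e : Bool) (w : ℕ × ℕ) (p : ℕ) : 0 ≤ th e w p := by
  unfold th
  have h1 : 0 ≤ Real.log p := Real.log_natCast_nonneg p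
  have h2 : 0 ≤ Real.log (Ht e w) := Real.log_natCast_nonneg _
  positivity

theorem gg_nonneg (e : Bool) (w : ℕ × ℕ) : 0 ≤ gg e w := by
  unfold gg
  cases e
  · simp
  · simp

theorem gg_le {e : Bool} {w : ℕ × ℕ} (h : Gd e w) : gg e w ≤ Real.log (Ht e w) := by
  have h0 : 0 ≤ Real.log (Ht e w) := Real.log_natCast_nonneg _
  cases e
  · unfold gg
    simp only [Bool.false_eq_true, if_false]
    apply max_le h0
    have h1 : Real.log (w.2 : ℝ) ≤ Real.log (Ht false w) :=
      Real.log_le_log (by exact_mod_cast h.p2) (by exact_mod_cast h.le2)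
    have h2 : 0 ≤ Real.log (Vl false w) := Real.log_natCast_nonneg _
    linarith
  · unfold gg
    simpa using h0

/-- what the known primes and the closeness give together -/
theorem total_ge {e : Bool} {w : ℕ × ℕ} (h : Gd e w) :
    Real.log (Ht e w) - Real.log 2 ≤ Real.log (Vl e w) + gg e w := by
  have hlog2 : 0 ≤ Real.log 2 := Real.log_nonneg (by norm_num)
  cases e
  · have hlt := h.lt rfl
    have hp2 : (0 : ℝ) < w.2 := by exact_mod_cast h.p2
    have hvl : (0 : ℝ) < Vl false w := by exact_mod_cast h.vl_pos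
    have e1 : (Ht false w : ℝ) = w.2 + Vl false w := by
      unfold Ht Vl
      simp only [Bool.false_eq_true, if_false]
      rw [Nat.cast_sub hlt.le]
      ring
    have hH : (0 : ℝ) < Ht false w := by exact_mod_cast h.ht_pos
    unfold gg
    simp only [Bool.false_eq_true, if_false]
    rcases le_total (w.2 : ℝ) (Vl false w) with h1 | h1
    · have h2 : Real.log (Ht false w) ≤ Real.log (2 * Vl false w) :=
        Real.log_le_log hH (by linarith)
      rw [Real.log_mul (by norm_num) hvl.ne'] at h2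
      have h3 := le_max_left (0 : ℝ) (Real.log w.2 - Real.log (Vl false w))
      linarith
    · have h2 : Real.log (Ht false w) ≤ Real.log (2 * w.2) :=
        Real.log_le_log hH (by linarith)
      rw [Real.log_mul (by norm_num) hp2.ne'] at h2
      have h3 := le_max_right (0 : ℝ) (Real.log w.2 - Real.log (Vl false w))
      linarith
  · have e1 : Vl true w = Ht true w := rfl
    have e2 : gg true w = 0 := by
      unfold gg
      simp
    rw [e1, e2]
    linarith

/-- the constant -/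
def CC (k J : ℕ) : ℕ := 4 * k ^ 2 * (k + 1) * 4 ^ J

/-- the hypotheses on a pair: the exponents of `u` and `v` outside `P` are multiples of `k`, and the primes outside
`P` contribute at most `θ` -/
structure Hyp (k J : ℕ) (θ Y : ℝ) (P : Finset ℕ) (e : Bool) (w : ℕ × ℕ) : Prop where
  gd : Gd e w
  l1 : J * Real.log 2 ≤ Real.log (Ht e w)
  l2 : 4 * k * Real.log k ≤ Real.log (Ht e w)
  l3 : 1 ≤ Real.log (Ht e w)
  up : Real.log (Ht e w) ≤ Real.exp Y
  e1 : ∀ p, p ∉ P → k ∣ w.1.factorization p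
  e2 : ∀ p, p ∉ P → k ∣ w.2.factorization p
  sm : Real.log (Vl e w) - θ * Real.log (Ht e w) ≤ ∑ p ∈ P, ((Vl e w).factorization p : ℝ) * Real.log p

/-- Two different pairs of the same class. -/
theorem class_gap {k J : ℕ} {θ Y : ℝ} (hk : 1 ≤ k) (hJ : 1 ≤ J) (hF : 5 / 2 ≤ k * (1 - θ - 2 / J))
    {P : Finset ℕ} (hP : ∀ p ∈ P, p.Prime) {e : Bool} {w w' : ℕ × ℕ} (h : Hyp k J θ Y P e w) (h' : Hyp k J θ Y P e w')
    (hα : al k w.1 = al k w'.1) (hβ : al k w.2 = al k w'.2)
    (hd : ∀ p ∈ P, (p ∣ Vl e w ↔ p ∣ Vl e w'))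
    (hpat : ∀ p ∈ P, ⌊((J * (P.card + 1) : ℕ) : ℝ) * th e w p⌋₊ = ⌊((J * (P.card + 1) : ℕ) : ℝ) * th e w' p⌋₊)
    (hgg : ⌊((J * (P.card + 1) : ℕ) : ℝ) * (gg e w / Real.log (Ht e w))⌋₊ =
      ⌊((J * (P.card + 1) : ℕ) : ℝ) * (gg e w' / Real.log (Ht e w'))⌋₊)
    (hcl : ∀ p ∈ P, p ∣ Vl e w → cls p (rt k w.1) (rt k w.2) = cls p (rt k w'.1) (rt k w'.2))
    (hne : w ≠ w') (hLL : Real.log (Ht e w) ≤ Real.log (Ht e w')) :
    5 / 4 * Real.log (Ht e w) ≤ Real.log (Ht e w') := by
  classical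
  set L := Real.log (Ht e w) with hL
  set L' := Real.log (Ht e w') with hL'
  have hL1 : 1 ≤ L := h.l3
  have hL1' : 1 ≤ L' := h'.l3
  set M : ℝ := ((J * (P.card + 1) : ℕ) : ℝ) with hM
  have hJ0 : (1 : ℝ) ≤ J := by exact_mod_cast hJ
  have hMe : M = J * (P.card + 1) := by
    rw [hM]
    push_cast
    ring
  have hM0 : 0 < M := by
    rw [hMe]
    positivity
  set T := P.filter fun p => p ∣ Vl e w with hT
  set f : ℕ → ℝ := fun p => (⌊M * th e w p⌋₊ : ℝ) / M with hf
  set g : ℝ := (⌊M * (gg e w / L)⌋₊ : ℝ) / M with hg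
  have hf0 : ∀ p, 0 ≤ f p := fun p => by
    simp only [hf]
    positivity
  have hg0 : 0 ≤ g := by
    rw [hg]
    positivity
  have hfl : ∀ p, f p ≤ th e w p := by
    intro p
    simp only [hf]
    rw [div_le_iff₀ hM0, mul_comm (th e w p)]
    exact Nat.floor_le (mul_nonneg hM0.le (th_nonneg _ _ _))
  have hfl' : ∀ p ∈ P, f p ≤ th e w' p := by
    intro p hp
    simp only [hf]
    rw [hpat p hp, div_le_iff₀ hM0, mul_comm (th e w' p)]
    exact Nat.floor_le (mul_nonneg hM0.le (th_nonneg _ _ _))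
  have hgl : g ≤ gg e w / L := by
    rw [hg, div_le_iff₀ hM0, mul_comm (gg e w / L)]
    exact Nat.floor_le (mul_nonneg hM0.le (div_nonneg (gg_nonneg _ _) (by linarith)))
  have hgl' : g ≤ gg e w' / L' := by
    rw [hg, hgg, div_le_iff₀ hM0, mul_comm (gg e w' / L')]
    exact Nat.floor_le (mul_nonneg hM0.le (div_nonneg (gg_nonneg _ _) (by linarith)))
  have hth : ∀ (z : ℕ × ℕ) (p : ℕ), 1 ≤ Real.log (Ht e z) →
      th e z p * Real.log (Ht e z) = (Vl e z).factorization p * Real.log p := by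
    intro z p hz
    unfold th
    rw [div_mul_cancel₀]
    linarith
  have key := gap_two hk h.gd h'.gd hα hβ T (by
      intro p hp
      rw [hT, mem_filter] at hp
      exact ⟨hP p hp.1, hp.2, (hd p hp.1).1 hp.2⟩)
    (by
      intro p hp
      rw [hT, mem_filter] at hp
      exact hcl p hp.1 hp.2) f g (fun p _ => hf0 p) hg0 (by linarith) hLL
    (by
      intro p hp
      rw [← hth w p hL1]
      exact mul_le_mul_of_nonneg_right (hfl p) (by linarith))
    (by
      intro p hp
      rw [hT, mem_filter] at hp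
      rw [← hth w' p hL1']
      exact mul_le_mul_of_nonneg_right (hfl' p hp.1) (by linarith))
    (by rwa [le_div_iff₀ (by linarith)] at hgl)
    (by rwa [le_div_iff₀ (by linarith)] at hgl') hne
  -- the total
  have hsumT : ∑ p ∈ P, th e w p ≤ ∑ p ∈ T, f p + P.card / M := by
    have h1 : ∑ p ∈ P, th e w p = ∑ p ∈ T, th e w p := by
      symm
      rw [hT]
      apply sum_filter_of_ne
      intro p _ hp
      by_contra hnd
      apply hp
      unfold th
      rw [Nat.factorization_eq_zero_of_not_dvd hnd]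
      simp
    rw [h1]
    have h2 : ∑ p ∈ T, th e w p ≤ ∑ p ∈ T, (f p + 1 / M) := by
      refine sum_le_sum fun p _ => ?_
      have := (Nat.lt_floor_add_one (M * th e w p)).le
      simp only [hf]
      rw [← add_div, le_div_iff₀ hM0, mul_comm]
      exact this
    rw [sum_add_distrib, sum_const, nsmul_eq_mul] at h2
    have h3 : (T.card : ℝ) ≤ P.card := by exact_mod_cast card_le_card (filter_subset _ _)
    have h4 : (T.card : ℝ) * (1 / M) ≤ P.card / M := by
      rw [mul_one_div]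
      exact div_le_div_of_nonneg_right h3 hM0.le
    linarith
  have hgT : gg e w / L ≤ g + 1 / M := by
    have := (Nat.lt_floor_add_one (M * (gg e w / L))).le
    rw [hg, ← add_div, le_div_iff₀ hM0, mul_comm]
    exact this
  have hP1 : (P.card : ℝ) / M + 1 / M = 1 / J := by
    rw [← add_div, hMe]
    field_simp
  have htot : 1 - θ - 2 / J ≤ ∑ p ∈ T, f p + g := by
    have h1 := total_ge h.gd
    have h2 := h.sm
    have h3 : (∑ p ∈ P, th e w p) * L = ∑ p ∈ P, ((Vl e w).factorization p : ℝ) * Real.log p := by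
      rw [sum_mul]
      exact sum_congr rfl fun p _ => hth w p hL1
    have h4 : (∑ p ∈ P, th e w p + gg e w / L) * L ≥ (1 - θ - 1 / J) * L := by
      rw [add_mul, h3, div_mul_cancel₀ _ (by linarith : L ≠ 0)]
      have h5 : 1 / (J : ℝ) * L ≥ Real.log 2 := by
        have h6 := h.l1
        rw [one_div, inv_mul_eq_div, ge_iff_le, le_div_iff₀ (by linarith), mul_comm]
        exact h6
      have h7 : (1 - θ - 1 / J) * L = L - θ * L - 1 / J * L := by ring
      rw [h7]
      linarith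
    have h5 : 1 - θ - 1 / J ≤ ∑ p ∈ P, th e w p + gg e w / L :=
      le_of_mul_le_mul_right h4 (by linarith)
    have h6 : (2 : ℝ) / J = 1 / J + 1 / J := by ring
    rw [h6]
    linarith
  have hk0 : (0 : ℝ) < k := by exact_mod_cast hk
  have h1 : (∑ p ∈ T, f p + g) * L * k ≤ k * Real.log k + (L + L') := by
    have h2 := mul_le_mul_of_nonneg_right key hk0.le
    have h3 : (Real.log k + (L + L') / k) * k = k * Real.log k + (L + L') := by
      field_simp
    rw [h3] at h2
    exact h2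
  have h2 : 5 / 2 * L ≤ (∑ p ∈ T, f p + g) * L * k := by
    have h3 : k * (1 - θ - 2 / J) ≤ k * (∑ p ∈ T, f p + g) := mul_le_mul_of_nonneg_left htot hk0.le
    calc 5 / 2 * L ≤ (k * (∑ p ∈ T, f p + g)) * L := mul_le_mul_of_nonneg_right (hF.trans h3) (by linarith)
      _ = (∑ p ∈ T, f p + g) * L * k := by ring
  have h3 := h.l2
  linarith

/-- **The number of pairs with known primes `P`.** -/
theorem cls_card {k J : ℕ} {θ Y : ℝ} (hk : 1 ≤ k) (hJ : 1 ≤ J) (hF : 5 / 2 ≤ k * (1 - θ - 2 / J)) (hY : 0 ≤ Y)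
    {P : Finset ℕ} (hP : ∀ p ∈ P, p.Prime) (e : Bool) (Z : Finset (ℕ × ℕ))
    (hZ : ∀ w ∈ Z, Hyp k J θ Y P e w) : (Z.card : ℝ) ≤ (CC k J : ℝ) ^ (P.card + 1) * (1 + 5 * Y) := by
  classical
  set M : ℕ := J * (P.card + 1) with hM
  have hMr : (0 : ℝ) ≤ (M : ℝ) := Nat.cast_nonneg _
  -- the keys
  set key : ℕ × ℕ → (P → ℕ × ℕ × ℕ) × (P → ℕ) × ℕ := fun w =>
    (fun p => (w.1.factorization p % k, w.2.factorization p % k, if (p : ℕ) ∣ Vl e w then 1 else 0),
      fun p => ⌊(M : ℝ) * th e w p⌋₊, ⌊(M : ℝ) * (gg e w / Real.log (Ht e w))⌋₊) with hkey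
  set KK : Finset ((P → ℕ × ℕ × ℕ) × (P → ℕ) × ℕ) :=
    (Fintype.piFinset fun _ : P => range k ×ˢ range k ×ˢ range 2) ×ˢ
    ((Fintype.piFinset fun _ : P => range (M + 1)).filter fun φ => ∑ p, φ p ≤ M) ×ˢ range (M + 1) with hKK
  have hsum : ∀ w ∈ Z, ∑ p : P, ⌊(M : ℝ) * th e w p⌋₊ ≤ M := by
    intro w hw
    have h := hZ w hw
    have hL : 1 ≤ Real.log (Ht e w) := h.l3
    have h1 : ((∑ p : P, ⌊(M : ℝ) * th e w p⌋₊ : ℕ) : ℝ) ≤ M := by
      push_cast
      calc ∑ p : P, (⌊(M : ℝ) * th e w p⌋₊ : ℝ) ≤ ∑ p : P, (M : ℝ) * th e w p :=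
            sum_le_sum fun p _ => Nat.floor_le (mul_nonneg hMr (th_nonneg _ _ _))
        _ = (M : ℝ) * ∑ p ∈ P, th e w p := by
            rw [← mul_sum, sum_coe_sort P (fun p => th e w p)]
        _ ≤ (M : ℝ) * 1 := by
            apply mul_le_mul_of_nonneg_left _ hMr
            unfold th
            rw [← sum_div, div_le_one (by linarith)]
            refine (sum_fac_le (Vl e w) h.gd.vl_pos.ne' P).trans ?_
            exact Real.log_le_log (by exact_mod_cast h.gd.vl_pos) (by exact_mod_cast h.gd.le3)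
        _ = M := mul_one _
    exact_mod_cast h1
  have hmem : ∀ w ∈ Z, key w ∈ KK := by
    intro w hw
    have h := hZ w hw
    have hL : 1 ≤ Real.log (Ht e w) := h.l3
    rw [hKK, mem_product, mem_product, mem_filter, Fintype.mem_piFinset, Fintype.mem_piFinset]
    refine ⟨fun p => ?_, ⟨fun p => ?_, hsum w hw⟩, ?_⟩
    · rw [mem_product, mem_product, mem_range, mem_range, mem_range]
      refine ⟨Nat.mod_lt _ (by omega), Nat.mod_lt _ (by omega), ?_⟩
      simp only [hkey]
      split_ifs <;> norm_num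
    · rw [mem_range, Nat.lt_succ_iff]
      exact (single_le_sum (f := fun p : P => ⌊(M : ℝ) * th e w p⌋₊) (fun _ _ => Nat.zero_le _)
        (mem_univ p)).trans (hsum w hw)
    · rw [mem_range, Nat.lt_succ_iff]
      have h1 : gg e w / Real.log (Ht e w) ≤ 1 := by
        rw [div_le_one (by linarith)]
        exact gg_le h.gd
      have h2 : (M : ℝ) * (gg e w / Real.log (Ht e w)) ≤ (M : ℝ) := by
        calc (M : ℝ) * (gg e w / Real.log (Ht e w)) ≤ (M : ℝ) * 1 := mul_le_mul_of_nonneg_left h1 hMr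
          _ = M := mul_one _
      exact Nat.floor_le_of_le h2
  have hKKcard : KK.card ≤ (2 * k ^ 2) ^ P.card * (2 ^ (M + P.card) * (M + 1)) := by
    rw [hKK, card_product, card_product, card_range, Fintype.card_piFinset]
    apply Nat.mul_le_mul
    · rw [prod_const, card_univ, Fintype.card_coe]
      apply le_of_eq
      rw [card_product, card_product, card_range, card_range]
      ring
    · exact Nat.mul_le_mul_right _ (pat_count' P M)
  -- the fibres
  have hfib : ∀ κ : (P → ℕ × ℕ × ℕ) × (P → ℕ) × ℕ, ((Z.filter fun w => key w = κ).card : ℝ) ≤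
      ((k + 1 : ℕ) : ℝ) ^ P.card * (1 + 5 * Y) := by
    intro κ
    rcases (Z.filter fun w => key w = κ).eq_empty_or_nonempty with he | ⟨w0, hw0⟩
    · rw [he, card_empty]
      push_cast
      positivity
    rw [mem_filter] at hw0
    have h0 := hZ w0 hw0.1
    set α : ℕ := al k w0.1 with hα
    set β : ℤ := be e k w0.2 with hβ
    have hQ : ∀ p : ℕ, ∃ Q : Finset ℕ, Q.card ≤ k ∧ (2 ≤ k → p.Prime → ∀ x y : ℤ, ¬ (p : ℤ) ∣ (α : ℤ) →
        ¬ (p : ℤ) ∣ x → ¬ (p : ℤ) ∣ y → (p : ℤ) ∣ (α : ℤ) * x ^ k - β * y ^ k → cls p x y ∈ Q) := by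
      intro p
      by_cases hp : 2 ≤ k ∧ p.Prime
      · obtain ⟨Q, h1, h2⟩ := cls_mem hp.1 hp.2 (α : ℤ) β
        exact ⟨Q, h1, fun _ _ => h2⟩
      · exact ⟨∅, by simp, fun h h' => absurd ⟨h, h'⟩ hp⟩
    choose Q hQ1 hQ2 using hQ
    have hk2 : 2 ≤ k := by
      by_contra hlt
      have hk1 : k = 1 := by omega
      rw [hk1, Nat.cast_one, one_mul] at hF
      have h1 : (0 : ℝ) < 2 / J := by positivity
      have h2 := h0.sm
      have h3 := sum_fac_le (Vl e w0) h0.gd.vl_pos.ne' P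
      have h4 := h0.l3
      have h5 : θ ≤ -3 / 2 := by linarith
      -- `log V - θ L ≤ log V` gives `θ ≥ 0`
      have h6 : -(θ * Real.log (Ht e w0)) ≤ 0 := by linarith
      nlinarith
    have hall : ∀ w ∈ Z.filter (fun w => key w = κ), Hyp k J θ Y P e w ∧
        (∀ p ∈ P, w.1.factorization p % k = w0.1.factorization p % k ∧
          w.2.factorization p % k = w0.2.factorization p % k ∧ (p ∣ Vl e w ↔ p ∣ Vl e w0) ∧
          ⌊(M : ℝ) * th e w p⌋₊ = ⌊(M : ℝ) * th e w0 p⌋₊) ∧
        ⌊(M : ℝ) * (gg e w / Real.log (Ht e w))⌋₊ = ⌊(M : ℝ) * (gg e w0 / Real.log (Ht e w0))⌋₊ ∧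
        al k w.1 = α ∧ al k w.2 = al k w0.2 := by
      intro w hw
      rw [mem_filter] at hw
      have h := hZ w hw.1
      have heq : key w = key w0 := hw.2.trans hw0.2.symm
      have hk1 : ∀ p : P, (w.1.factorization p % k, w.2.factorization p % k, if (p : ℕ) ∣ Vl e w then 1 else 0) =
          (w0.1.factorization p % k, w0.2.factorization p % k, if (p : ℕ) ∣ Vl e w0 then 1 else 0) := fun p =>
        congrFun (congrArg Prod.fst heq) p
      have hk2' : ∀ p : P, ⌊(M : ℝ) * th e w p⌋₊ = ⌊(M : ℝ) * th e w0 p⌋₊ := fun p =>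
        congrFun (congrArg (fun t => t.2.1) heq) p
      have hk3 : ⌊(M : ℝ) * (gg e w / Real.log (Ht e w))⌋₊ = ⌊(M : ℝ) * (gg e w0 / Real.log (Ht e w0))⌋₊ :=
        congrArg (fun t => t.2.2) heq
      have hA : ∀ p ∈ P, w.1.factorization p % k = w0.1.factorization p % k := fun p hp =>
        congrArg Prod.fst (hk1 ⟨p, hp⟩)
      have hB : ∀ p ∈ P, w.2.factorization p % k = w0.2.factorization p % k := fun p hp =>
        congrArg (fun t => t.2.1) (hk1 ⟨p, hp⟩)
      have hC : ∀ p ∈ P, (p ∣ Vl e w ↔ p ∣ Vl e w0) := by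
        intro p hp
        have h1 : (if (p : ℕ) ∣ Vl e w then 1 else 0) = (if (p : ℕ) ∣ Vl e w0 then 1 else 0) :=
          congrArg (fun t => t.2.2) (hk1 ⟨p, hp⟩)
        by_cases h2 : p ∣ Vl e w <;> by_cases h3 : p ∣ Vl e w0 <;> simp [h2, h3] at h1 ⊢
      refine ⟨h, fun p hp => ⟨hA p hp, hB p hp, hC p hp, hk2' ⟨p, hp⟩⟩, hk3, ?_, ?_⟩
      · rw [hα, al_key P h.e1, al_key P h0.e1]
        exact prod_congr rfl fun p hp => by rw [hA p hp]
      · rw [al_key P h.e2, al_key P h0.e2]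
        exact prod_congr rfl fun p hp => by rw [hB p hp]
    -- the classes of the ratio
    set QQ : Finset (P → ℕ) := Fintype.piFinset fun p : P => insert 0 (Q p) with hQQ
    set ck : ℕ × ℕ → P → ℕ := fun w p => if (p : ℕ) ∣ Vl e w0 then cls p (rt k w.1) (rt k w.2) else 0 with hck
    have hQQcard : QQ.card ≤ (k + 1) ^ P.card := by
      rw [hQQ, Fintype.card_piFinset]
      calc ∏ p : P, (insert 0 (Q p)).card ≤ ∏ _p : P, (k + 1) :=
            Finset.prod_le_prod' fun p _ => (card_insert_le _ _).trans (Nat.add_le_add_right (hQ1 p) 1)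
        _ = (k + 1) ^ P.card := by rw [prod_const, card_univ, Fintype.card_coe]
    have hckm : ∀ w ∈ Z.filter (fun w => key w = κ), ck w ∈ QQ := by
      intro w hw
      obtain ⟨h, hpp, _, ha, hb⟩ := hall w hw
      rw [hQQ, Fintype.mem_piFinset]
      intro p
      simp only [hck]
      split_ifs with hd
      · apply mem_insert_of_mem
        have hpr := hP p p.2
        have hdw : (p : ℕ) ∣ Vl e w := ((hpp p p.2).2.2.1).2 hd
        have hE := h.gd.eq3 k
        obtain ⟨h1, _, h2, h3⟩ := hE.not_dvd hk hpr hdw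
        rw [ha] at h1 hE
        have hb' : be e k w.2 = β := by
          rw [hβ]
          unfold be
          rw [hb]
        rw [hb'] at hE
        refine hQ2 p hk2 hpr _ _ h1 h2 h3 ?_
        rw [hE.val]
        exact_mod_cast hdw
      · exact mem_insert_self _ _
    have hfib2 : ∀ c ∈ QQ, (((Z.filter fun w => key w = κ).filter fun w => ck w = c).card : ℝ) ≤ 1 + 5 * Y := by
      intro c _
      apply gap_card _ (fun w => Real.log (Ht e w)) Y
      · intro w hw
        exact (hall w (mem_filter.1 hw).1).1.l3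
      · intro w hw
        exact (hall w (mem_filter.1 hw).1).1.up
      · intro w hw w' hw' hne hle
        rw [mem_filter] at hw hw'
        obtain ⟨h, hpp, hg, ha, hb⟩ := hall w hw.1
        obtain ⟨h', hpp', hg', ha', hb'⟩ := hall w' hw'.1
        refine class_gap hk hJ hF hP h h' (ha.trans ha'.symm) (hb.trans hb'.symm)
          (fun p hp => (hpp p hp).2.2.1.trans (hpp' p hp).2.2.1.symm)
          (fun p hp => (hpp p hp).2.2.2.trans (hpp' p hp).2.2.2.symm) (hg.trans hg'.symm) ?_ hne hle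
        intro p hp hd
        have hd0 : p ∣ Vl e w0 := (hpp p hp).2.2.1.1 hd
        have h1 : ck w ⟨p, hp⟩ = ck w' ⟨p, hp⟩ := by rw [hw.2, hw'.2]
        simp only [hck, if_pos hd0] at h1
        exact h1
      · exact hY
    have hN : ((Z.filter fun w => key w = κ).card : ℝ) ≤ (QQ.card : ℝ) * (1 + 5 * Y) := by
      have h1 : (Z.filter fun w => key w = κ).card = ∑ c ∈ QQ, ((Z.filter fun w => key w = κ).filter fun w => ck w = c).card :=
        card_eq_sum_card_fiberwise hckm
      rw [h1]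
      push_cast
      calc ∑ c ∈ QQ, (((Z.filter fun w => key w = κ).filter fun w => ck w = c).card : ℝ) ≤
            ∑ _c ∈ QQ, (1 + 5 * Y) := sum_le_sum hfib2
        _ = (QQ.card : ℝ) * (1 + 5 * Y) := by rw [sum_const, nsmul_eq_mul]
    refine hN.trans ?_
    apply mul_le_mul_of_nonneg_right _ (by linarith)
    exact_mod_cast hQQcard
  have h1 : (Z.card : ℝ) ≤ (KK.card : ℝ) * (((k + 1 : ℕ) : ℝ) ^ P.card * (1 + 5 * Y)) := by
    have h2 : Z.card = ∑ κ ∈ KK, (Z.filter fun w => key w = κ).card := card_eq_sum_card_fiberwise hmem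
    rw [h2, Nat.cast_sum]
    calc ∑ κ ∈ KK, ((Z.filter fun w => key w = κ).card : ℝ) ≤
          ∑ _κ ∈ KK, (((k + 1 : ℕ) : ℝ) ^ P.card * (1 + 5 * Y)) := sum_le_sum fun κ _ => hfib κ
      _ = (KK.card : ℝ) * (((k + 1 : ℕ) : ℝ) ^ P.card * (1 + 5 * Y)) := by rw [sum_const, nsmul_eq_mul]
  refine h1.trans ?_
  rw [← mul_assoc]
  apply mul_le_mul_of_nonneg_right _ (by linarith)
  have h2 : KK.card * (k + 1) ^ P.card ≤ CC k J ^ (P.card + 1) := by
    have hM2 : M + 1 ≤ 2 ^ M := Nat.lt_two_pow_self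
    calc KK.card * (k + 1) ^ P.card ≤ ((2 * k ^ 2) ^ P.card * (2 ^ (M + P.card) * (M + 1))) * (k + 1) ^ P.card :=
          Nat.mul_le_mul_right _ hKKcard
      _ ≤ ((2 * k ^ 2) ^ P.card * (2 ^ (M + P.card) * 2 ^ M)) * (k + 1) ^ P.card :=
          Nat.mul_le_mul_right _ (Nat.mul_le_mul_left _ (Nat.mul_le_mul_left _ hM2))
      _ = (2 * k ^ 2) ^ P.card * 2 ^ P.card * (k + 1) ^ P.card * (2 ^ M * 2 ^ M) := by
          rw [pow_add]
          ring
      _ = (4 * k ^ 2 * (k + 1)) ^ P.card * (4 ^ J) ^ (P.card + 1) := by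
          have e1 : 2 ^ M * 2 ^ M = (4 ^ J) ^ (P.card + 1) := by
            rw [← mul_pow, hM, pow_mul]
            norm_num
          rw [e1, ← mul_pow, ← mul_pow]
          congr 2
          ring
      _ ≤ (4 * k ^ 2 * (k + 1)) ^ (P.card + 1) * (4 ^ J) ^ (P.card + 1) := by
          apply Nat.mul_le_mul_right
          apply Nat.pow_le_pow_right _ (Nat.le_succ _)
          positivity
      _ = CC k J ^ (P.card + 1) := by
          rw [← mul_pow]
          rfl
  exact_mod_cast h2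

end Pool.MP_a95293_nt.TP
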