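import Pool.Agent.Lib_MP_a95293_rc.Lte
import Pool.Agent.Lib_MP_a95293_rc.DecA
import Pool.Agent.Lib_MP_a95293_rc.PatB

/-!
# The gap principle for `α x^k - β y^k = D` with known primes of `D` only
-/

set_option autoImplicit false

namespace Pool.MP_a95293_nt.TP

open Finset Pool.MP_a95293_nt.RC

/-- `(x, y)` is a positive solution of `α x^k - β y^k = D`, the two terms coprime -/
structure Eq3 (k : ℕ) (α β x y : ℤ) (D : ℕ) : Prop where
  hx : 0 < x
  hy : 0 < y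
  cop : IsCoprime (α * x ^ k) (β * y ^ k)
  val : α * x ^ k - β * y ^ k = D

theorem Eq3.not_dvd {k : ℕ} {α β x y : ℤ} {D : ℕ} (h : Eq3 k α β x y D) (hk : 1 ≤ k) {p : ℕ} (hp : p.Prime)
    (hpD : p ∣ D) : ¬ (p : ℤ) ∣ α ∧ ¬ (p : ℤ) ∣ β ∧ ¬ (p : ℤ) ∣ x ∧ ¬ (p : ℤ) ∣ y := by
  have hpD' : (p : ℤ) ∣ D := by exact_mod_cast hpD
  have hnu : ¬ IsUnit (p : ℤ) := by
    intro hu
    have := hp.one_lt
    rcases Int.isUnit_iff.1 hu with h3 | h3 <;> omega
  have ha : ¬ (p : ℤ) ∣ α * x ^ k := by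
    intro h1
    have h2 : (p : ℤ) ∣ β * y ^ k := by
      have h3 : β * y ^ k = α * x ^ k - D := by
        rw [← h.val]
        ring
      rw [h3]
      exact dvd_sub h1 hpD'
    exact hnu (h.cop.isUnit_of_dvd' h1 h2)
  have hb : ¬ (p : ℤ) ∣ β * y ^ k := by
    intro h1
    have h2 : (p : ℤ) ∣ α * x ^ k := by
      have h3 : α * x ^ k = β * y ^ k + D := by
        rw [← h.val]
        ring
      rw [h3]
      exact dvd_add h1 hpD'
    exact hnu (h.cop.isUnit_of_dvd' h2 h1)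
  refine ⟨fun h1 => ha (h1.mul_right _), fun h1 => hb (h1.mul_right _), fun h1 => ha ?_,
    fun h1 => hb ?_⟩
  · exact (h1.trans (dvd_pow_self x (by omega))).mul_left _
  · exact (h1.trans (dvd_pow_self y (by omega))).mul_left _

theorem Eq3.pow_sub {k : ℕ} {α β x y x' y' : ℤ} {D D' : ℕ} (h : Eq3 k α β x y D) (h' : Eq3 k α β x' y' D')
    (hk : 1 ≤ k) {p m : ℕ} (hp : p.Prime) (hpD : p ∣ D) (h1 : p ^ m ∣ D) (h2 : p ^ m ∣ D') :
    (p : ℤ) ^ m ∣ (x * y') ^ k - (x' * y) ^ k := by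
  have hβ := (h.not_dvd hk hp hpD).2.1
  have h3 : ((p : ℤ) ^ m) ∣ D := by exact_mod_cast h1
  have h4 : ((p : ℤ) ^ m) ∣ D' := by exact_mod_cast h2
  have h5 : β * ((x * y') ^ k - (x' * y) ^ k) = x' ^ k * D - x ^ k * D' := by
    rw [mul_pow, mul_pow, ← h.val, ← h'.val]
    ring
  have h6 : ((p : ℤ) ^ m) ∣ β * ((x * y') ^ k - (x' * y) ^ k) := by
    rw [h5]
    exact dvd_sub (h3.mul_left _) (h4.mul_left _)
  have h7 : IsCoprime ((p : ℤ) ^ m) β :=
    ((Prime.coprime_iff_not_dvd (Nat.prime_iff_prime_int.1 hp)).2 hβ).pow_left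
  exact h7.dvd_of_dvd_mul_left h6

/-- The lower bound: the known primes of `D`, `D'` give divisors of `x y' - x' y`. -/
theorem gap_low {k : ℕ} {α β x y x' y' : ℤ} {D D' : ℕ} (h : Eq3 k α β x y D) (h' : Eq3 k α β x' y' D')
    (hk : 1 ≤ k) (T : Finset ℕ) (hT : ∀ p ∈ T, p.Prime ∧ p ∣ D ∧ p ∣ D')
    (hcl : ∀ p ∈ T, (p : ℤ) ∣ x * y' - x' * y) (hcl2 : 2 ∈ T → (4 : ℤ) ∣ x * y' - x' * y)
    (hne : x * y' ≠ x' * y) :
    ∑ p ∈ T, ((min (D.factorization p) (D'.factorization p) : ℕ) : ℝ) * Real.log p ≤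
      Real.log k + Real.log |((x * y' - x' * y : ℤ) : ℝ)| := by
  classical
  set m : ℕ → ℕ := fun p => min (D.factorization p) (D'.factorization p) with hm
  have hdiv : ∀ p ∈ T, (p : ℤ) ^ m p ∣ (k : ℤ) * (x * y' - x' * y) := by
    intro p hp
    obtain ⟨hpp, hpD, hpD'⟩ := hT p hp
    obtain ⟨_, _, hx, hy⟩ := h.not_dvd hk hpp hpD
    obtain ⟨_, _, hx', hy'⟩ := h'.not_dvd hk hpp hpD'
    have hpz := Nat.prime_iff_prime_int.1 hpp
    have hs : ¬ (p : ℤ) ∣ x * y' := fun h0 => (hpz.dvd_mul.1 h0).elim hx hy'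
    refine lte hpp hk hs (hcl p hp) (fun h2' => hcl2 (h2' ▸ hp)) ?_
    refine h.pow_sub h' hk hpp hpD ?_ ?_
    · exact (pow_dvd_pow p (min_le_left _ _)).trans (Nat.ordProj_dvd D p)
    · exact (pow_dvd_pow p (min_le_right _ _)).trans (Nat.ordProj_dvd D' p)
  have hprod : (∏ p ∈ T, (p : ℤ) ^ m p) ∣ (k : ℤ) * (x * y' - x' * y) := by
    refine Finset.prod_dvd_of_coprime ?_ hdiv
    intro p hp q hq hpq
    have hpp := (hT p hp).1
    have hqq := (hT q hq).1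
    have h3 : Nat.Coprime (p ^ m p) (q ^ m q) :=
      Nat.Coprime.pow _ _ ((Nat.coprime_primes hpp hqq).2 hpq)
    have h4 := Nat.isCoprime_iff_coprime.2 h3
    push_cast at h4
    exact h4
  have hz : x * y' - x' * y ≠ 0 := sub_ne_zero.2 hne
  have hk0 : (k : ℤ) ≠ 0 := by
    have : k ≠ 0 := by omega
    exact_mod_cast this
  have hle : (∏ p ∈ T, (p : ℝ) ^ m p) ≤ |((k : ℤ) : ℝ) * ((x * y' - x' * y : ℤ) : ℝ)| := by
    have h3 := Int.le_of_dvd (abs_pos.2 (mul_ne_zero hk0 hz)) ((dvd_abs _ _).2 hprod)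
    exact_mod_cast h3
  have hpos : ∀ p ∈ T, (0 : ℝ) < p := fun p hp => by
    exact_mod_cast (hT p hp).1.pos
  have h3 : Real.log (∏ p ∈ T, (p : ℝ) ^ m p) = ∑ p ∈ T, (m p : ℝ) * Real.log p := by
    rw [Real.log_prod fun p hp => by
      have := hpos p hp
      positivity]
    refine sum_congr rfl fun p _ => ?_
    rw [Real.log_pow]
  rw [← h3]
  have hk1 : (0 : ℝ) < k := by exact_mod_cast hk
  have hz1 : (0 : ℝ) < |((x * y' - x' * y : ℤ) : ℝ)| := by
    rw [abs_pos]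
    exact_mod_cast hz
  rw [← Real.log_mul hk1.ne' hz1.ne']
  apply Real.log_le_log (prod_pos fun p hp => by
    have := hpos p hp
    positivity)
  rw [abs_mul, Int.cast_natCast, abs_of_pos hk1] at hle
  exact hle

/-- The trivial upper bound. -/
theorem gap_up {k : ℕ} {α β x y x' y' : ℤ} {D D' : ℕ} (h : Eq3 k α β x y D) (h' : Eq3 k α β x' y' D')
    (hk : 1 ≤ k) (hα : α ≠ 0) (hβ : β ≠ 0) {H H' : ℝ} (hu : |((α * x ^ k : ℤ) : ℝ)| ≤ H)
    (hv : |((β * y ^ k : ℤ) : ℝ)| ≤ H) (hu' : |((α * x' ^ k : ℤ) : ℝ)| ≤ H')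
    (hv' : |((β * y' ^ k : ℤ) : ℝ)| ≤ H') :
    Real.log ((x' * y : ℤ) : ℝ) ≤ (Real.log H + Real.log H') / k ∧
      Real.log ((x * y' : ℤ) : ℝ) ≤ (Real.log H + Real.log H') / k := by
  have hk0 : (0 : ℝ) < k := by exact_mod_cast hk
  have key : ∀ {γ z : ℤ} {B : ℝ}, γ ≠ 0 → 0 < z → |((γ * z ^ k : ℤ) : ℝ)| ≤ B → (z : ℝ) ^ k ≤ B := by
    intro γ z B hγ hz hB
    refine le_trans ?_ hB
    have h1 : (1 : ℝ) ≤ |(γ : ℝ)| := by exact_mod_cast Int.one_le_abs hγ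
    have h2 : (0 : ℝ) < z := by exact_mod_cast hz
    push_cast
    rw [abs_mul, abs_of_pos (pow_pos h2 k)]
    exact le_mul_of_one_le_left (by positivity) h1
  have main : ∀ {z w : ℤ} {A B : ℝ}, 0 < z → 0 < w → (z : ℝ) ^ k ≤ A → (w : ℝ) ^ k ≤ B →
      Real.log ((z * w : ℤ) : ℝ) ≤ (Real.log A + Real.log B) / k := by
    intro z w A B hz hw hA hB
    have hz' : (0 : ℝ) < z := by exact_mod_cast hz
    have hw' : (0 : ℝ) < w := by exact_mod_cast hw
    have e1 := Real.log_le_log (pow_pos hz' k) hA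
    have e2 := Real.log_le_log (pow_pos hw' k) hB
    rw [Real.log_pow] at e1 e2
    push_cast
    rw [Real.log_mul hz'.ne' hw'.ne', le_div_iff₀ hk0]
    linarith
  constructor
  · rw [add_comm]
    exact main h'.hx h.hy (key hα h'.hx hu') (key hβ h.hy hv)
  · exact main h.hx h'.hy (key hα h.hx hu) (key hβ h'.hy hv')

/-- The upper bound without closeness. -/
theorem gap_up1 {k : ℕ} {α β x y x' y' : ℤ} {D D' : ℕ} (h : Eq3 k α β x y D) (h' : Eq3 k α β x' y' D')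
    (hk : 1 ≤ k) (hα : α ≠ 0) (hβ : β ≠ 0) {H H' : ℝ} (hu : |((α * x ^ k : ℤ) : ℝ)| ≤ H)
    (hv : |((β * y ^ k : ℤ) : ℝ)| ≤ H) (hu' : |((α * x' ^ k : ℤ) : ℝ)| ≤ H')
    (hv' : |((β * y' ^ k : ℤ) : ℝ)| ≤ H') (hne : x * y' ≠ x' * y) :
    Real.log |((x * y' - x' * y : ℤ) : ℝ)| ≤ (Real.log H + Real.log H') / k := by
  obtain ⟨g1, g2⟩ := gap_up h h' hk hα hβ hu hv hu' hv'
  have hs : (0 : ℝ) < ((x * y' : ℤ) : ℝ) := by exact_mod_cast mul_pos h.hx h'.hy
  have ht : (0 : ℝ) < ((x' * y : ℤ) : ℝ) := by exact_mod_cast mul_pos h'.hx h.hy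
  have hz : (0 : ℝ) < |((x * y' - x' * y : ℤ) : ℝ)| := by
    rw [abs_pos]
    exact_mod_cast sub_ne_zero.2 hne
  have h1 : |((x * y' - x' * y : ℤ) : ℝ)| ≤ max ((x * y' : ℤ) : ℝ) ((x' * y : ℤ) : ℝ) := by
    rw [Int.cast_sub, abs_sub_le_iff]
    constructor
    · have := le_max_left ((x * y' : ℤ) : ℝ) ((x' * y : ℤ) : ℝ)
      linarith
    · have := le_max_right ((x * y' : ℤ) : ℝ) ((x' * y : ℤ) : ℝ)
      linarith
  refine (Real.log_le_log hz h1).trans ?_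
  rcases max_cases ((x * y' : ℤ) : ℝ) ((x' * y : ℤ) : ℝ) with ⟨e, _⟩ | ⟨e, _⟩
  · rw [e]
    exact g2
  · rw [e]
    exact g1

/-- The upper bound with closeness: `u = v + D`. -/
theorem gap_up2 {k : ℕ} {α β x y x' y' : ℤ} {D D' : ℕ} (h : Eq3 k α β x y D) (h' : Eq3 k α β x' y' D')
    (hk : 1 ≤ k) (hα : 0 < α) (hβ : 0 < β) (hD : 0 < D) (hD' : 0 < D') {g : ℝ}
    (hg : Real.log (D : ℝ) + g ≤ Real.log ((β * y ^ k : ℤ) : ℝ))
    (hg' : Real.log (D' : ℝ) + g ≤ Real.log ((β * y' ^ k : ℤ) : ℝ)) (hne : x * y' ≠ x' * y) :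
    Real.log |((x * y' - x' * y : ℤ) : ℝ)| ≤ Real.log ((x' * y : ℤ) : ℝ) - g := by
  have hsz : 0 < x * y' := mul_pos h.hx h'.hy
  have htz : 0 < x' * y := mul_pos h'.hx h.hy
  have hz : (0 : ℝ) < |((x * y' - x' * y : ℤ) : ℝ)| := by
    rw [abs_pos]
    exact_mod_cast sub_ne_zero.2 hne
  set s : ℝ := ((x * y' : ℤ) : ℝ) with hs_def
  set t : ℝ := ((x' * y : ℤ) : ℝ) with ht_def
  have hs : 0 < s := by rw [hs_def]; exact_mod_cast hsz
  have ht : 0 < t := by rw [ht_def]; exact_mod_cast htz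
  set u : ℝ := ((α * x ^ k : ℤ) : ℝ) with hu
  set v : ℝ := ((β * y ^ k : ℤ) : ℝ) with hv
  set u' : ℝ := ((α * x' ^ k : ℤ) : ℝ) with hu'
  set v' : ℝ := ((β * y' ^ k : ℤ) : ℝ) with hv'
  have hv0 : 0 < v := by
    rw [hv]
    exact_mod_cast mul_pos hβ (pow_pos h.hy k)
  have hv0' : 0 < v' := by
    rw [hv']
    exact_mod_cast mul_pos hβ (pow_pos h'.hy k)
  have e1 : u = v + D := by
    have := h.val
    rw [hu, hv]
    have h2 : (α * x ^ k : ℤ) = β * y ^ k + D := by linarith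
    rw [h2]
    push_cast
    ring
  have e1' : u' = v' + D' := by
    have := h'.val
    rw [hu', hv']
    have h2 : (α * x' ^ k : ℤ) = β * y' ^ k + D' := by linarith
    rw [h2]
    push_cast
    ring
  have hDr : (0 : ℝ) < D := by exact_mod_cast hD
  have hDr' : (0 : ℝ) < D' := by exact_mod_cast hD'
  -- u v' and u' v in terms of s, t
  have e2 : u * v' = (α * β : ℝ) * s ^ k := by
    rw [hu, hv', hs_def]
    push_cast
    rw [mul_pow]
    ring
  have e3 : u' * v = (α * β : ℝ) * t ^ k := by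
    rw [hu', hv, ht_def]
    push_cast
    rw [mul_pow]
    ring
  have hαβ : (0 : ℝ) < α * β := by
    exact_mod_cast mul_pos hα hβ
  -- |s - t| t^(k-1) ≤ |s^k - t^k|
  have e4 : |s - t| * t ^ (k - 1) ≤ |s ^ k - t ^ k| := by
    obtain ⟨j, rfl⟩ : ∃ j, k = j + 1 := ⟨k - 1, by omega⟩
    rw [Nat.add_sub_cancel]
    rw [← (Commute.all s t).mul_geom_sum₂ (j + 1), abs_mul]
    rw [mul_comm |s - t|]
    rw [mul_comm |s - t|]
    apply mul_le_mul_of_nonneg_right _ (abs_nonneg _)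
    have h5 : t ^ j ≤ ∑ i ∈ range (j + 1), s ^ i * t ^ (j + 1 - 1 - i) := by
      have := Finset.single_le_sum (f := fun i => s ^ i * t ^ (j + 1 - 1 - i))
        (fun i _ => by positivity) (mem_range.2 (Nat.succ_pos j))
      simpa using this
    exact h5.trans (le_abs_self _)
  -- main
  set M : ℝ := Real.exp (-g) with hM
  have hM0 : 0 < M := Real.exp_pos _
  have hDv : (D : ℝ) ≤ M * v := by
    have h5 : Real.log D ≤ Real.log (M * v) := by
      rw [Real.log_mul hM0.ne' hv0.ne', hM, Real.log_exp]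
      linarith
    exact (Real.log_le_log_iff hDr (by positivity)).1 h5
  have hDv' : (D' : ℝ) ≤ M * v' := by
    have h5 : Real.log D' ≤ Real.log (M * v') := by
      rw [Real.log_mul hM0.ne' hv0'.ne', hM, Real.log_exp]
      linarith
    exact (Real.log_le_log_iff hDr' (by positivity)).1 h5
  have e5 : |u * v' - u' * v| ≤ M * (u' * v) := by
    have h5 : u * v' - u' * v = D * v' - D' * v := by
      rw [e1, e1']
      ring
    rw [h5, abs_sub_le_iff]
    have h6 : (D : ℝ) * v' ≤ M * (u' * v) := by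
      calc (D : ℝ) * v' ≤ M * v * v' := mul_le_mul_of_nonneg_right hDv hv0'.le
        _ ≤ M * v * u' := by
          apply mul_le_mul_of_nonneg_left _ (by positivity)
          rw [e1']
          linarith
        _ = M * (u' * v) := by ring
    have h7 : (D' : ℝ) * v ≤ M * (u' * v) := by
      calc (D' : ℝ) * v ≤ M * v' * v := mul_le_mul_of_nonneg_right hDv' hv0.le
        _ ≤ M * u' * v := by
          apply mul_le_mul_of_nonneg_right _ hv0.le
          apply mul_le_mul_of_nonneg_left _ hM0.le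
          rw [e1']
          linarith
        _ = M * (u' * v) := by ring
    have h8 : 0 ≤ (D : ℝ) * v' := by positivity
    have h9 : 0 ≤ (D' : ℝ) * v := by positivity
    constructor <;> linarith
  have e6 : |s ^ k - t ^ k| ≤ M * t ^ k := by
    rw [e2, e3, ← mul_sub, abs_mul, abs_of_pos hαβ] at e5
    have h5 : (α * β : ℝ) * |s ^ k - t ^ k| ≤ (α * β : ℝ) * (M * t ^ k) := by
      refine e5.trans (le_of_eq ?_)
      ring
    exact le_of_mul_le_mul_left h5 hαβ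
  have e7 : |s - t| ≤ M * t := by
    have h5 : |s - t| * t ^ (k - 1) ≤ (M * t) * t ^ (k - 1) := by
      refine (e4.trans e6).trans (le_of_eq ?_)
      rw [mul_assoc, ← pow_succ']
      congr 2
      omega
    exact le_of_mul_le_mul_right h5 (pow_pos ht _)
  have e8 : ((x * y' - x' * y : ℤ) : ℝ) = s - t := by
    rw [Int.cast_sub]
  rw [e8] at hz ⊢
  refine (Real.log_le_log hz e7).trans (le_of_eq ?_)
  rw [Real.log_mul hM0.ne' ht.ne', hM, Real.log_exp]
  ring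

end Pool.MP_a95293_nt.TP
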