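import Pool.Agent.Lib_MP_a95293_tp.PolyA
import Pool.Agent.Lib_MP_a95293_tp.Asy

/-!
# The triples of polynomial height
-/

set_option autoImplicit false

namespace Pool.MP_a95293_nt.TP

open Finset Pool.MP_a95293_nt.RC

/-- the number of pairs with product at most `Q` -/
theorem hyper_count {Q : ℕ} (hQ : 1 ≤ Q) :
    ((((Icc 1 Q) ×ˢ (Icc 1 Q)).filter fun rs => rs.1 * rs.2 ≤ Q).card : ℝ) ≤ Q * (1 + Real.log Q) := by
  classical
  have h1 : (((Icc 1 Q) ×ˢ (Icc 1 Q)).filter fun rs => rs.1 * rs.2 ≤ Q).card ≤ ∑ r ∈ Icc 1 Q, Q / r := by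
    have h2 : ((Icc 1 Q) ×ˢ (Icc 1 Q)).filter (fun rs => rs.1 * rs.2 ≤ Q) ⊆
        (Icc 1 Q).biUnion fun r => (Icc 1 (Q / r)).image fun s => (r, s) := by
      rintro ⟨r, s⟩ hrs
      rw [mem_filter, mem_product, mem_Icc, mem_Icc] at hrs
      obtain ⟨⟨⟨a1, a2⟩, b1, b2⟩, hle⟩ := hrs
      rw [mem_biUnion]
      refine ⟨r, mem_Icc.2 ⟨a1, a2⟩, mem_image.2 ⟨s, mem_Icc.2 ⟨b1, ?_⟩, rfl⟩⟩
      rw [Nat.le_div_iff_mul_le (by exact a1), mul_comm]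
      exact hle
    refine (card_le_card h2).trans (card_biUnion_le.trans (sum_le_sum fun r _ => ?_))
    refine card_image_le.trans ?_
    rw [Nat.card_Icc, Nat.add_sub_cancel]
  have h3 : ((∑ r ∈ Icc 1 Q, Q / r : ℕ) : ℝ) ≤ Q * ∑ r ∈ Icc 1 Q, 1 / (r : ℝ) := by
    rw [Nat.cast_sum, mul_sum]
    refine sum_le_sum fun r _ => ?_
    rw [mul_one_div]
    exact Nat.cast_div_le
  have h4 := sum_inv_le Q hQ
  calc ((((Icc 1 Q) ×ˢ (Icc 1 Q)).filter fun rs => rs.1 * rs.2 ≤ Q).card : ℝ) ≤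
        ((∑ r ∈ Icc 1 Q, Q / r : ℕ) : ℝ) := by exact_mod_cast h1
    _ ≤ Q * ∑ r ∈ Icc 1 Q, 1 / (r : ℝ) := h3
    _ ≤ Q * (1 + Real.log Q) := mul_le_mul_of_nonneg_left h4 (Nat.cast_nonneg _)

/-- pairs of integers with radicals of small product -/
theorem pair_count {σ C : ℝ} (hC : 1 ≤ C) (hR : ∀ (N : ℕ) (P S : Finset ℕ), 1 ≤ N →
      (∀ n ∈ S, 0 < n ∧ n ≤ N ∧ n.primeFactors = P) → (S.card : ℝ) ≤ C * (N : ℝ) ^ σ)
    {N Q : ℕ} (hN : 1 ≤ N) (hQ : 1 ≤ Q) (W : Finset (ℕ × ℕ))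
    (hW : ∀ w ∈ W, 0 < w.1 ∧ 0 < w.2 ∧ w.1 ≤ N ∧ w.2 ≤ N ∧ rd w.1 * rd w.2 ≤ Q) :
    (W.card : ℝ) ≤ Q * (1 + Real.log Q) * (C * (N : ℝ) ^ σ) ^ 2 := by
  classical
  set TT := ((Icc 1 Q) ×ˢ (Icc 1 Q)).filter fun rs => rs.1 * rs.2 ≤ Q with hTT
  have hU0 : 0 ≤ C * (N : ℝ) ^ σ := mul_nonneg (by linarith) (Real.rpow_nonneg (Nat.cast_nonneg _) _)
  have hmem : ∀ w ∈ W, (rd w.1, rd w.2) ∈ TT := by
    intro w hw
    obtain ⟨_, _, _, _, h5⟩ := hW w hw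
    have h6 := rd_pos w.1
    have h7 := rd_pos w.2
    rw [hTT, mem_filter, mem_product, mem_Icc, mem_Icc]
    refine ⟨⟨⟨h6, ?_⟩, h7, ?_⟩, h5⟩
    · exact (Nat.le_mul_of_pos_right _ h7).trans h5
    · exact (Nat.le_mul_of_pos_left _ h6).trans h5
  have hfib : ∀ rs ∈ TT, ((W.filter fun w => (rd w.1, rd w.2) = rs).card : ℝ) ≤ (C * (N : ℝ) ^ σ) ^ 2 := by
    rintro ⟨r, s⟩ _
    set S1 := (W.filter fun w => (rd w.1, rd w.2) = (r, s)).image Prod.fst with hS1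
    set S2 := (W.filter fun w => (rd w.1, rd w.2) = (r, s)).image Prod.snd with hS2
    have h1 : (W.filter fun w => (rd w.1, rd w.2) = (r, s)) ⊆ S1 ×ˢ S2 := by
      intro w hw
      rw [mem_product]
      exact ⟨mem_image_of_mem _ hw, mem_image_of_mem _ hw⟩
    have h2 : (S1.card : ℝ) ≤ C * (N : ℝ) ^ σ := by
      apply hR N r.primeFactors S1 hN
      intro n hn
      rw [hS1, mem_image] at hn
      obtain ⟨w, hw, rfl⟩ := hn
      rw [mem_filter] at hw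
      obtain ⟨hw, he⟩ := hw
      obtain ⟨g1, _, g3, _, _⟩ := hW w hw
      refine ⟨g1, g3, ?_⟩
      have e1 : rd w.1 = r := congrArg Prod.fst he
      rw [← e1, rd_primeFactors]
    have h3 : (S2.card : ℝ) ≤ C * (N : ℝ) ^ σ := by
      apply hR N s.primeFactors S2 hN
      intro n hn
      rw [hS2, mem_image] at hn
      obtain ⟨w, hw, rfl⟩ := hn
      rw [mem_filter] at hw
      obtain ⟨hw, he⟩ := hw
      obtain ⟨_, g2, _, g4, _⟩ := hW w hw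
      refine ⟨g2, g4, ?_⟩
      have e1 : rd w.2 = s := congrArg Prod.snd he
      rw [← e1, rd_primeFactors]
    have h4 : (((W.filter fun w => (rd w.1, rd w.2) = (r, s)).card : ℕ) : ℝ) ≤ (S1.card : ℝ) * S2.card := by
      have h5 := card_le_card h1
      rw [card_product] at h5
      exact_mod_cast h5
    refine h4.trans ?_
    rw [sq]
    exact mul_le_mul h2 h3 (Nat.cast_nonneg _) hU0
  have h1 : W.card = ∑ rs ∈ TT, (W.filter fun w => (rd w.1, rd w.2) = rs).card :=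
    card_eq_sum_card_fiberwise hmem
  rw [h1, Nat.cast_sum]
  calc ∑ rs ∈ TT, ((W.filter fun w => (rd w.1, rd w.2) = rs).card : ℝ) ≤
        ∑ _rs ∈ TT, (C * (N : ℝ) ^ σ) ^ 2 := sum_le_sum hfib
    _ = (TT.card : ℝ) * (C * (N : ℝ) ^ σ) ^ 2 := by rw [sum_const, nsmul_eq_mul]
    _ ≤ Q * (1 + Real.log Q) * (C * (N : ℝ) ^ σ) ^ 2 :=
        mul_le_mul_of_nonneg_right (hyper_count hQ) (sq_nonneg _)

/-- the radicals of two of the three numbers have a small product -/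
theorem two_small {z : ℕ × ℕ} (hz : Prm z) {X : ℕ} (hX : rd (pr3 z) ≤ X) :
    ∃ i, rd (cfw i z).1 * rd (cfw i z).2 ≤ ⌊(X : ℝ) ^ (2 / 3 : ℝ)⌋₊ := by
  have h0 := rd_pr3 hz
  set a : ℝ := (rd z.1 : ℝ) with ha
  set b : ℝ := (rd z.2 : ℝ) with hb
  set c : ℝ := (rd (z.1 + z.2) : ℝ) with hc
  have ha0 : 0 < a := by
    rw [ha]
    exact_mod_cast rd_pos z.1
  have hb0 : 0 < b := by
    rw [hb]
    exact_mod_cast rd_pos z.2
  have hc0 : 0 < c := by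
    rw [hc]
    exact_mod_cast rd_pos (z.1 + z.2)
  have habc : a * b * c ≤ (X : ℝ) := by
    have h1 : ((rd z.1 * rd z.2 * rd (z.1 + z.2) : ℕ) : ℝ) ≤ (X : ℝ) := by
      rw [← h0]
      exact_mod_cast hX
    push_cast at h1
    exact h1
  have hX0 : (0 : ℝ) ≤ X := Nat.cast_nonneg _
  set t : ℝ := (X : ℝ) ^ (2 / 3 : ℝ) with ht
  have ht0 : 0 ≤ t := Real.rpow_nonneg hX0 _
  have ht3 : t ^ 3 = (X : ℝ) ^ 2 := by
    rw [ht, ← Real.rpow_natCast, ← Real.rpow_mul hX0, ← Real.rpow_natCast]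
    congr 1
    norm_num
  by_contra hcon
  push Not at hcon
  have g0 : t < a * b := by
    have h1 := hcon 0
    have h2 := Nat.lt_of_floor_lt h1
    push_cast at h2
    exact h2
  have g1 : t < c * a := by
    have h1 := hcon 1
    have h2 := Nat.lt_of_floor_lt h1
    push_cast at h2
    exact h2
  have g2 : t < c * b := by
    have h1 := hcon 2
    have h2 := Nat.lt_of_floor_lt h1
    push_cast at h2
    exact h2
  have h1 : t * t * t < (a * b) * (c * a) * (c * b) := by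
    have e1 : t * t < (a * b) * (c * a) := mul_lt_mul'' g0 g1 ht0 ht0
    exact mul_lt_mul'' e1 g2 (mul_nonneg ht0 ht0) ht0
  have h2 : (a * b) * (c * a) * (c * b) = (a * b * c) ^ 2 := by ring
  have h3 : (a * b * c) ^ 2 ≤ (X : ℝ) ^ 2 := pow_le_pow_left₀ (by positivity) habc 2
  have h4 : t * t * t = t ^ 3 := by ring
  rw [h4, ht3, h2] at h1
  linarith

/-- **The pairs of polynomial height.** -/
theorem poly_count (M : ℕ) {e : ℝ} (he : 0 < e) : ∃ X₀ : ℕ, ∀ X : ℕ, X₀ ≤ X → ∀ Z : Finset (ℕ × ℕ),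
    (∀ z ∈ Z, Prm z ∧ rd (pr3 z) ≤ X ∧ z.1 + z.2 ≤ X ^ M) → (Z.card : ℝ) ≤ (X : ℝ) ^ (2 / 3 + e) := by
  classical
  set σ : ℝ := e / (4 * (M + 1)) with hσ
  have hM0 : (0 : ℝ) < 4 * (M + 1) := by positivity
  have hσ0 : 0 < σ := div_pos he hM0
  have hσM : M * σ * 2 ≤ e / 2 := by
    have h1 : σ * (4 * (M + 1)) = e := by
      rw [hσ]
      field_simp
    nlinarith
  obtain ⟨C, hC, hR⟩ := rankin hσ0
  obtain ⟨X₀, hX₀⟩ := Filter.eventually_atTop.1 (tendsto_natCast_atTop_atTop.eventually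
    ((log_pow_le 1 (by linarith : 0 < e / 2) (3 * C ^ 2)).and (Filter.eventually_ge_atTop (1 : ℝ))))
  refine ⟨X₀, fun X hX Z hZ => ?_⟩
  obtain ⟨g1, g2⟩ := hX₀ X hX
  set x : ℝ := (X : ℝ) with hx
  have hx0 : 0 < x := by linarith
  set Q := ⌊x ^ (2 / 3 : ℝ)⌋₊ with hQ
  have hQ1 : 1 ≤ Q := Nat.le_floor (by
    push_cast
    exact Real.one_le_rpow g2 (by norm_num))
  have hQr : (Q : ℝ) ≤ x ^ (2 / 3 : ℝ) := Nat.floor_le (Real.rpow_nonneg hx0.le _)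
  have hX1 : 1 ≤ X := by
    have h := g2
    rw [hx] at h
    exact_mod_cast h
  have hN1 : 1 ≤ X ^ M := Nat.one_le_pow _ _ hX1
  set U : ℝ := Q * (1 + Real.log Q) * (C * ((X ^ M : ℕ) : ℝ) ^ σ) ^ 2 with hU
  set Zi : Fin 3 → Finset (ℕ × ℕ) := fun i => Z.filter fun z => rd (cfw i z).1 * rd (cfw i z).2 ≤ Q with hZi
  have hZic : ∀ i, ((Zi i).card : ℝ) ≤ U := by
    intro i
    rw [← card_image_of_injective _ (cfw_inj i)]
    apply pair_count hC hR hN1 hQ1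
    intro w hw
    rw [mem_image] at hw
    obtain ⟨z, hz, rfl⟩ := hw
    rw [hZi, mem_filter] at hz
    obtain ⟨hz, hQz⟩ := hz
    obtain ⟨f1, _, f3⟩ := hZ z hz
    have hG := cfw_Gd f1 i
    have e1 := hG.le1
    have e2 := hG.le2
    rw [cfw_Ht] at e1 e2
    exact ⟨hG.p1, hG.p2, e1.trans f3, e2.trans f3, hQz⟩
  have hcov : Z ⊆ univ.biUnion Zi := by
    intro z hz
    obtain ⟨f1, f2, _⟩ := hZ z hz
    obtain ⟨i, hi⟩ := two_small f1 f2
    rw [mem_biUnion]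
    exact ⟨i, mem_univ _, mem_filter.2 ⟨hz, hi⟩⟩
  have h1 : (Z.card : ℝ) ≤ 3 * U := by
    have h2 : Z.card ≤ ∑ i, (Zi i).card := (card_le_card hcov).trans card_biUnion_le
    calc (Z.card : ℝ) ≤ ((∑ i, (Zi i).card : ℕ) : ℝ) := by exact_mod_cast h2
      _ = ∑ i, ((Zi i).card : ℝ) := by push_cast; rfl
      _ ≤ ∑ _i : Fin 3, U := sum_le_sum fun i _ => hZic i
      _ = 3 * U := by simp
  refine h1.trans ?_
  have hQ1r : (1 : ℝ) ≤ Q := by exact_mod_cast hQ1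
  have hQx : (Q : ℝ) ≤ x := by
    refine hQr.trans ?_
    calc x ^ (2 / 3 : ℝ) ≤ x ^ (1 : ℝ) := Real.rpow_le_rpow_of_exponent_le g2 (by norm_num)
      _ = x := Real.rpow_one x
  have hlog : Real.log Q ≤ Real.log x := Real.log_le_log (by linarith) hQx
  have hlog0 : 0 ≤ Real.log Q := Real.log_nonneg hQ1r
  have e1 : (C * ((X ^ M : ℕ) : ℝ) ^ σ) ^ 2 = C ^ 2 * x ^ (M * σ * 2) := by
    rw [mul_pow]
    congr 1
    push_cast
    rw [← Real.rpow_natCast x M, ← Real.rpow_mul hx0.le, ← Real.rpow_natCast (x ^ ((M : ℝ) * σ)) 2,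
      ← Real.rpow_mul hx0.le]
    norm_num
  have e2 : x ^ (M * σ * 2) ≤ x ^ (e / 2) := Real.rpow_le_rpow_of_exponent_le g2 hσM
  have e3 : U ≤ x ^ (2 / 3 : ℝ) * (1 + Real.log x) * (C ^ 2 * x ^ (e / 2)) := by
    rw [hU, e1]
    apply mul_le_mul
    · exact mul_le_mul hQr (by linarith) (by linarith) (Real.rpow_nonneg hx0.le _)
    · exact mul_le_mul_of_nonneg_left e2 (sq_nonneg _)
    · positivity
    · have := Real.log_nonneg g2
      positivity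
  rw [pow_one] at g1
  calc 3 * U ≤ 3 * (x ^ (2 / 3 : ℝ) * (1 + Real.log x) * (C ^ 2 * x ^ (e / 2))) := by linarith
    _ = (3 * C ^ 2 * (1 + Real.log x)) * (x ^ (2 / 3 : ℝ) * x ^ (e / 2)) := by ring
    _ ≤ x ^ (e / 2) * (x ^ (2 / 3 : ℝ) * x ^ (e / 2)) :=
        mul_le_mul_of_nonneg_right g1 (by positivity)
    _ = x ^ (2 / 3 + e) := by
        rw [← Real.rpow_add hx0, ← Real.rpow_add hx0]
        congr 1
        ring

end Pool.MP_a95293_nt.TP
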