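import Pool.Agent.Lib_MP_a95293_tp.Fin
import Pool.Agent.Lib_MP_a95293_tp.Poly

/-!
# Theorem T
-/

set_option autoImplicit false

namespace Pool.MP_a95293_nt.TP

/-- **Theorem T.** -/
theorem three_primes {η : ℝ} (hη : η < 1) (K : ℕ) :
    ∃ c : ℝ, 0 < c ∧ ∀ ε : ℝ, 0 < ε → ε ≤ 1 → ∃ X₀ : ℕ, ∀ X : ℕ, X₀ ≤ X →
      (Exc ε η (c * ε) K X).Finite ∧
      ((Exc ε η (c * ε) K X).ncard : ℝ) ≤ (X : ℝ) ^ (1 - c * ε) :=
  final_of (fun M _ he => poly_count M he) hη K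

end Pool.MP_a95293_nt.TP
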