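import Pool.Agent.Lib_MP_a95293_tp.Asy

/-!
# From pairs to admissible triples
-/

set_option autoImplicit false

namespace Pool.MP_a95293_nt.TP

open Finset Pool.MP_a95293_nt.RC

/-- the largest absolute value -/
def ht3 (x : Fin 3 → ℤ) : ℕ := univ.sup fun j => (x j).natAbs

private theorem Adm_core {p q r : ℤ} (hp : p ≠ 0) (hq : q ≠ 0)
    (hs : (0 < p ∧ 0 < q) ∨ (p < 0 ∧ q < 0)) (hr : p + q + r = 0)
    (hg : ∀ d : ℤ, d ∣ p → d ∣ q → d ∣ r → IsUnit d) :
    Prm (p.natAbs, q.natAbs) ∧ (p * q * r).natAbs = pr3 (p.natAbs, q.natAbs) ∧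
      r.natAbs = p.natAbs + q.natAbs := by
  have hr' : r.natAbs = p.natAbs + q.natAbs := by omega
  refine ⟨⟨Int.natAbs_pos.2 hp, Int.natAbs_pos.2 hq, ?_⟩, ?_, hr'⟩
  · apply Nat.coprime_of_dvd
    intro d hd h1 h2
    have h3 : (d : ℤ) ∣ p := Int.natCast_dvd.2 h1
    have h4 : (d : ℤ) ∣ q := Int.natCast_dvd.2 h2
    have h5 : (d : ℤ) ∣ r := by
      have : r = -(p + q) := by linarith
      rw [this]
      exact (dvd_add h3 h4).neg_right
    have h6 := hg d h3 h4 h5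
    have h7 := hd.one_lt
    rcases Int.isUnit_iff.1 h6 with h8 | h8 <;> omega
  · unfold pr3
    rw [Int.natAbs_mul, Int.natAbs_mul, hr']

private theorem Adm_vals {p q r : ℤ} (hr : r.natAbs = p.natAbs + q.natAbs) (v : ℤ)
    (hv : v = p ∨ v = q ∨ v = r) : ∃ i, v.natAbs = cfv i (p.natAbs, q.natAbs) := by
  rcases hv with rfl | rfl | rfl
  · exact ⟨2, rfl⟩
  · exact ⟨1, rfl⟩
  · exact ⟨0, hr⟩

/-- the pair of an admissible triple -/
theorem adm_full {x : Fin 3 → ℤ} (hx : Adm x) : ∃ z : ℕ × ℕ, Prm z ∧ radZ (∏ i, x i) = rd (pr3 z) ∧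
    (∀ j, ∃ i, (x j).natAbs = cfv i z) ∧ ∃ j, (x j).natAbs = z.1 + z.2 := by
  obtain ⟨hgcd, hsum, hne⟩ := hx
  rw [Fin.sum_univ_three] at hsum
  have h0 : x 0 ≠ 0 := by
    have := hne {0} (singleton_nonempty _) (by decide)
    rwa [sum_singleton] at this
  have h1 : x 1 ≠ 0 := by
    have := hne {1} (singleton_nonempty _) (by decide)
    rwa [sum_singleton] at this
  have h2 : x 2 ≠ 0 := by
    have := hne {2} (singleton_nonempty _) (by decide)
    rwa [sum_singleton] at this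
  have hg : ∀ d : ℤ, d ∣ x 0 → d ∣ x 1 → d ∣ x 2 → IsUnit d := by
    intro d e0 e1 e2
    apply isUnit_of_dvd_one
    rw [← hgcd]
    apply Finset.dvd_gcd
    intro i _
    fin_cases i
    · exact e0
    · exact e1
    · exact e2
  have hrad : ∀ z : ℕ × ℕ, (∏ i, x i).natAbs = pr3 z → radZ (∏ i, x i) = rd (pr3 z) := by
    intro z hz
    unfold radZ rd
    rw [hz]
  have hprod : ∏ i, x i = x 0 * x 1 * x 2 := Fin.prod_univ_three _
  have hcases : ((0 < x 0 ∧ 0 < x 1) ∨ (x 0 < 0 ∧ x 1 < 0)) ∨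
      ((0 < x 0 ∧ 0 < x 2) ∨ (x 0 < 0 ∧ x 2 < 0)) ∨
      ((0 < x 1 ∧ 0 < x 2) ∨ (x 1 < 0 ∧ x 2 < 0)) := by omega
  rcases hcases with hs | hs | hs
  · obtain ⟨hz, hp, hr⟩ := Adm_core h0 h1 hs (by omega) hg
    refine ⟨_, hz, hrad _ (by rw [hprod, ← hp]), ?_, 2, hr⟩
    intro j
    refine Adm_vals hr (x j) ?_
    fin_cases j
    · exact Or.inl rfl
    · exact Or.inr (Or.inl rfl)
    · exact Or.inr (Or.inr rfl)
  · obtain ⟨hz, hp, hr⟩ := Adm_core h0 h2 hs (by omega) (fun d a b c => hg d a c b)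
    refine ⟨_, hz, hrad _ (by
      rw [hprod, ← hp]
      congr 1
      ring), ?_, 1, hr⟩
    intro j
    refine Adm_vals hr (x j) ?_
    fin_cases j
    · exact Or.inl rfl
    · exact Or.inr (Or.inr rfl)
    · exact Or.inr (Or.inl rfl)
  · obtain ⟨hz, hp, hr⟩ := Adm_core h1 h2 hs (by omega) (fun d a b c => hg d c a b)
    refine ⟨_, hz, hrad _ (by
      rw [hprod, ← hp]
      congr 1
      ring), ?_, 0, hr⟩
    intro j
    refine Adm_vals hr (x j) ?_
    fin_cases j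
    · exact Or.inr (Or.inr rfl)
    · exact Or.inl rfl
    · exact Or.inr (Or.inl rfl)

/-- the height -/
theorem ht3_eq {x : Fin 3 → ℤ} {z : ℕ × ℕ} (h1 : ∀ j, ∃ i, (x j).natAbs = cfv i z)
    (h2 : ∃ j, (x j).natAbs = z.1 + z.2) : ht3 x = z.1 + z.2 := by
  apply le_antisymm
  · apply Finset.sup_le
    intro j _
    obtain ⟨i, hi⟩ := h1 j
    rw [hi]
    exact cfv_le z i
  · obtain ⟨j, hj⟩ := h2
    rw [← hj]
    exact Finset.le_sup (f := fun j => (x j).natAbs) (mem_univ j)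

/-- the shape of a triple -/
def Shp (E η : ℝ) (K : ℕ) (x : Fin 3 → ℤ) : Prop :=
  ∃ (a : Fin 3 → ℤ) (q e : Fin 3 → ℕ), (∀ j, x j = a j * (q j : ℤ) ^ e j) ∧ (radZ (∏ j, a j) : ℝ) ≤ E ∧
    ∀ j, q j = 1 ∨ ((q j).Prime ∧ ¬ (q j : ℤ) ∣ a j ∧ |(a j : ℝ)| ≤ (ht3 x : ℝ) ^ (1 - η) ∧ K < e j ∧
      ∀ k, 3 ≤ k → k ≤ K → ¬ k ∣ e j)

theorem Shp.mono {E η η' : ℝ} {K : ℕ} {x : Fin 3 → ℤ} (h : Shp E η' K x) (hη : η ≤ η') (hx : 1 ≤ ht3 x) :
    Shp E η K x := by
  obtain ⟨a, q, e, h1, h2, h3⟩ := h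
  refine ⟨a, q, e, h1, h2, fun j => ?_⟩
  rcases h3 j with h | ⟨h4, h5, h6, h7, h8⟩
  · exact Or.inl h
  · refine Or.inr ⟨h4, h5, h6.trans ?_, h7, h8⟩
    exact Real.rpow_le_rpow_of_exponent_le (by exact_mod_cast hx) (by linarith)

/-- one number with at most one good prime -/
theorem one_num {X K : ℕ} {η : ℝ} {z : ℕ × ℕ} (hz : Prm z) (hη : 1 / 2 ≤ η) (hX : rd (pr3 z) ≤ X)
    (hbig : X ^ (2 * K + 1) < z.1 + z.2) (v : ℤ) (i : Fin 3) (hv : v.natAbs = cfv i z) :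
    ∃ (a : ℤ) (q e : ℕ), v = a * (q : ℤ) ^ e ∧ (∀ p, p ∈ a.natAbs.primeFactors → p ∈ bad η K z) ∧
      (q = 1 ∨ (q.Prime ∧ ¬ (q : ℤ) ∣ a ∧ |(a : ℝ)| ≤ ((z.1 + z.2 : ℕ) : ℝ) ^ (1 - η) ∧ K < e ∧
      ∀ k, 3 ≤ k → k ≤ K → ¬ k ∣ e)) := by
  classical
  have hc2 : 2 ≤ z.1 + z.2 := by
    have h1 := hz.1
    have h2 := hz.2.1
    omega
  have hc1 : (1 : ℝ) < ((z.1 + z.2 : ℕ) : ℝ) := by exact_mod_cast hc2
  have hc0 : (0 : ℝ) < ((z.1 + z.2 : ℕ) : ℝ) := by linarith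
  set c : ℝ := ((z.1 + z.2 : ℕ) : ℝ) with hc
  set L := Real.log c with hL
  have hL0 : 0 < L := Real.log_pos hc1
  have hv0 : cfv i z ≠ 0 := (cfv_pos hz i).ne'
  have hvz : v ≠ 0 := by
    rintro rfl
    rw [Int.natAbs_zero] at hv
    exact hv0 hv.symm
  -- a prime that is not bad
  have hgood : ∀ p ∈ (cfv i z).primeFactors, p ∉ bad η K z →
      η * L < ((cfv i z).factorization p : ℝ) * Real.log p ∧
        ∀ k, 3 ≤ k → k ≤ K → ¬ k ∣ (cfv i z).factorization p := by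
    intro p hp hb
    have hpz : p ∈ (pr3 z).primeFactors := (mem_pr3 hz).2 ⟨i, hp⟩
    unfold bad at hb
    rw [mem_filter, not_and] at hb
    have h1 := hb hpz
    rw [fact_cfv hz i hp] at h1
    push Not at h1
    exact ⟨h1.1, h1.2⟩
  by_cases hS : ∀ p ∈ (cfv i z).primeFactors, p ∈ bad η K z
  · refine ⟨v, 1, 0, by simp, ?_, Or.inl rfl⟩
    intro p hp
    rw [hv] at hp
    exact hS p hp
  · push Not at hS
    obtain ⟨q, hq, hqb⟩ := hS
    obtain ⟨g1, g2⟩ := hgood q hq hqb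
    have hqp : q.Prime := Nat.prime_of_mem_primeFactors hq
    set e := (cfv i z).factorization q with he
    have hdvd : (q : ℤ) ^ e ∣ v := by
      have h1 : q ^ e ∣ v.natAbs := by
        rw [hv]
        exact Nat.ordProj_dvd (cfv i z) q
      rw [← Nat.cast_pow]
      exact Int.natCast_dvd.2 h1
    obtain ⟨a, ha⟩ := hdvd
    have hqnd : ¬ (q : ℤ) ∣ a := by
      rintro ⟨b, hb⟩
      have h1 : q ^ (e + 1) ∣ cfv i z := by
        rw [← hv, ha, hb]
        rw [Int.natAbs_mul, Int.natAbs_mul, Int.natAbs_pow, Int.natAbs_natCast]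
        exact ⟨b.natAbs, by ring⟩
      exact Nat.pow_succ_factorization_not_dvd hv0 hqp h1
    have hnat : cfv i z = q ^ e * a.natAbs := by
      rw [← hv, ha, Int.natAbs_mul, Int.natAbs_pow, Int.natAbs_natCast]
    have hlq : 0 < Real.log q := Real.log_pos (by exact_mod_cast hqp.one_lt)
    have hqe : c ^ η < (q : ℝ) ^ e := by
      have h1 : Real.log (c ^ η) < Real.log ((q : ℝ) ^ e) := by
        rw [Real.log_rpow hc0, Real.log_pow]
        exact g1
      have h2 : (0 : ℝ) < (q : ℝ) ^ e := by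
        have := hqp.pos
        positivity
      exact (Real.log_lt_log_iff (Real.rpow_pos_of_pos hc0 _) h2).1 h1
    have habs : |(a : ℝ)| * (q : ℝ) ^ e ≤ c := by
      have h1 : ((q ^ e * a.natAbs : ℕ) : ℝ) ≤ c := by
        rw [← hnat, hc]
        exact_mod_cast cfv_le z i
      have h2 : |(a : ℝ)| = (a.natAbs : ℝ) := by
        rw [← Int.cast_abs, Int.abs_eq_natAbs, Int.cast_natCast]
      rw [h2]
      push_cast at h1
      linarith
    refine ⟨a, q, e, by rw [ha]; ring, ?_, Or.inr ⟨hqp, hqnd, ?_, ?_, g2⟩⟩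
    · intro p hp
      by_contra hpb
      have hpp : p.Prime := Nat.prime_of_mem_primeFactors hp
      have hpv : p ∈ (cfv i z).primeFactors := by
        rw [hnat]
        exact Nat.mem_primeFactors.2 ⟨hpp, Dvd.dvd.mul_left (Nat.dvd_of_mem_primeFactors hp) _, by
          rw [← hnat]
          exact hv0⟩
      have hpq : p ≠ q := by
        rintro rfl
        exact hqnd (Int.natCast_dvd.2 (Nat.dvd_of_mem_primeFactors hp))
      obtain ⟨k1, _⟩ := hgood p hpv hpb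
      have h1 := sum_fac_le (cfv i z) hv0 {p, q}
      rw [sum_pair hpq] at h1
      have h2 : Real.log (cfv i z) ≤ L :=
        Real.log_le_log (by exact_mod_cast cfv_pos hz i) (by rw [hc]; exact_mod_cast cfv_le z i)
      have h3 : 1 / 2 * L ≤ η * L := mul_le_mul_of_nonneg_right hη hL0.le
      linarith
    · have h1 : 0 < c ^ η := Real.rpow_pos_of_pos hc0 _
      have h2 : |(a : ℝ)| * c ^ η ≤ c := by
        refine le_trans ?_ habs
        exact mul_le_mul_of_nonneg_left hqe.le (abs_nonneg _)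
      rw [Real.rpow_sub hc0, Real.rpow_one, le_div_iff₀ h1]
      exact h2
    · have hqX : q ≤ X := by
        refine le_trans ?_ hX
        have h1 : q ∣ rd (pr3 z) := by
          unfold rd
          exact dvd_prod_of_mem (fun p => p) ((mem_pr3 hz).2 ⟨i, hq⟩)
        exact Nat.le_of_dvd (rd_pos _) h1
      have hq0 : (0 : ℝ) < q := by exact_mod_cast hqp.pos
      have hlX : Real.log q ≤ Real.log X := Real.log_le_log hq0 (by exact_mod_cast hqX)
      have hXL : (2 * K + 1) * Real.log X < L := by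
        have hX0 : (0 : ℝ) < X := lt_of_lt_of_le hq0 (by exact_mod_cast hqX)
        have h1 : Real.log ((X : ℝ) ^ (2 * K + 1)) < L := by
          apply Real.log_lt_log (by positivity)
          rw [hc]
          exact_mod_cast hbig
        rw [Real.log_pow] at h1
        push_cast at h1
        exact h1
      have h3 : 1 / 2 * L ≤ η * L := mul_le_mul_of_nonneg_right hη hL0.le
      have h4 : (K : ℝ) * Real.log q ≤ K * Real.log X := mul_le_mul_of_nonneg_left hlX (Nat.cast_nonneg _)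
      have h5 : (K : ℝ) * Real.log q < e * Real.log q := by
        have h6 : (2 * (K : ℝ) + 1) * Real.log X = 2 * (K * Real.log X) + Real.log X := by ring
        have h7 : 0 < Real.log X := lt_of_lt_of_le hlq hlX
        linarith
      have h6 : (K : ℝ) < e := lt_of_mul_lt_mul_right h5 hlq.le
      exact_mod_cast h6

/-- **The shape of a triple with few bad primes.** -/
theorem shp_of {X K : ℕ} {E η : ℝ} {x : Fin 3 → ℤ} {z : ℕ × ℕ} (hz : Prm z) (hη : 1 / 2 ≤ η)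
    (hX : rd (pr3 z) ≤ X) (h1 : ∀ j, ∃ i, (x j).natAbs = cfv i z) (h2 : ∃ j, (x j).natAbs = z.1 + z.2)
    (hbig : X ^ (2 * K + 1) < z.1 + z.2) (hbad : ∏ p ∈ bad η K z, (p : ℝ) ≤ E) : Shp E η K x := by
  classical
  have h3 : ∀ j, ∃ (a : ℤ) (q e : ℕ), x j = a * (q : ℤ) ^ e ∧
      (∀ p, p ∈ a.natAbs.primeFactors → p ∈ bad η K z) ∧
      (q = 1 ∨ (q.Prime ∧ ¬ (q : ℤ) ∣ a ∧ |(a : ℝ)| ≤ ((z.1 + z.2 : ℕ) : ℝ) ^ (1 - η) ∧ K < e ∧
      ∀ k, 3 ≤ k → k ≤ K → ¬ k ∣ e)) := by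
    intro j
    obtain ⟨i, hi⟩ := h1 j
    exact one_num hz hη hX hbig (x j) i hi
  choose a q e h4 h5 h6 using h3
  refine ⟨a, q, e, h4, ?_, ?_⟩
  · refine le_trans ?_ hbad
    have h9 : radZ (∏ j, a j) ≤ ∏ p ∈ bad η K z, p := ?_
    · have h10 : ((radZ (∏ j, a j) : ℕ) : ℝ) ≤ ((∏ p ∈ bad η K z, p : ℕ) : ℝ) := by exact_mod_cast h9
      rwa [Nat.cast_prod] at h10
    unfold radZ
    apply prod_le_prod_of_subset_of_one_le'
    · intro p hp
      have hpp := Nat.prime_of_mem_primeFactors hp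
      have hpd := Nat.dvd_of_mem_primeFactors hp
      rw [← Int.natCast_dvd] at hpd
      obtain ⟨j, _, hj⟩ := (Prime.dvd_finset_prod_iff (Nat.prime_iff_prime_int.1 hpp) _).1 hpd
      apply h5 j p
      refine Nat.mem_primeFactors.2 ⟨hpp, Int.natCast_dvd.1 hj, ?_⟩
      intro h0
      have h7 : a j = 0 := Int.natAbs_eq_zero.1 h0
      have h8 : ∏ j, a j = 0 := prod_eq_zero (mem_univ j) h7
      rw [h8, Int.natAbs_zero, Nat.primeFactors_zero] at hp
      exact absurd hp (notMem_empty p)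
    · intro p hp _
      unfold bad at hp
      rw [mem_filter] at hp
      exact (Nat.prime_of_mem_primeFactors hp.1).one_lt.le
  · intro j
    rw [ht3_eq h1 h2]
    exact h6 j

end Pool.MP_a95293_nt.TP
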