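import Pool.Agent.Lib_MP_a95293_tp.Two

/-!
# Counting lemmas
-/

set_option autoImplicit false

namespace Pool.MP_a95293_nt.TP

open Finset Pool.MP_a95293_nt.RC

/-- the coefficient only depends on the exponents at the primes of `P` -/
theorem al_key {k a : ℕ} (P : Finset ℕ) (h : ∀ p, p ∉ P → k ∣ a.factorization p) :
    al k a = ∏ p ∈ P, p ^ (a.factorization p % k) := by
  classical
  have h1 : al k a = ∏ p ∈ a.primeFactors ∪ P, p ^ (a.factorization p % k) := by
    unfold al
    apply prod_subset subset_union_left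
    intro p _ hp
    have h2 : a.factorization p = 0 := by
      rw [← Finsupp.notMem_support_iff, Nat.support_factorization]
      exact hp
    rw [h2, Nat.zero_mod, pow_zero]
  have h2 : ∏ p ∈ P, p ^ (a.factorization p % k) = ∏ p ∈ a.primeFactors ∪ P, p ^ (a.factorization p % k) := by
    apply prod_subset subset_union_right
    intro p _ hp
    rw [Nat.mod_eq_zero_of_dvd (h p hp), pow_zero]
  rw [h1, h2]

/-- the number of patterns -/
theorem pat_count' (P : Finset ℕ) (M : ℕ) :
    ((Fintype.piFinset fun _ : P => range (M + 1)).filter fun φ => ∑ p, φ p ≤ M).card ≤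
      2 ^ (M + P.card) := by
  classical
  set Q := Fintype.piFinset fun _ : P => range (M + 1) with hQ
  have h1 : ((Q.filter fun φ => ∑ p, φ p ≤ M).card : ℝ) ≤ 2 ^ (M + P.card) := by
    calc ((Q.filter fun φ => ∑ p, φ p ≤ M).card : ℝ) =
        ∑ φ ∈ Q.filter (fun φ => ∑ p, φ p ≤ M), (1 : ℝ) := by
          rw [sum_const, nsmul_eq_mul, mul_one]
      _ ≤ ∑ φ ∈ Q.filter (fun φ => ∑ p, φ p ≤ M),
          (2 : ℝ) ^ M * ∏ p, (1 / 2 : ℝ) ^ (φ p) := by
          refine sum_le_sum fun φ hφ => ?_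
          rw [mem_filter] at hφ
          rw [Finset.prod_pow_eq_pow_sum, one_div, inv_pow, ← div_eq_mul_inv,
            le_div_iff₀ (by positivity), one_mul]
          exact pow_le_pow_right₀ (by norm_num) hφ.2
      _ ≤ ∑ φ ∈ Q, (2 : ℝ) ^ M * ∏ p, (1 / 2 : ℝ) ^ (φ p) :=
          sum_le_sum_of_subset_of_nonneg (filter_subset _ _) fun _ _ _ => by positivity
      _ = (2 : ℝ) ^ M * ∏ _p : P, ∑ j ∈ range (M + 1), (1 / 2 : ℝ) ^ j := by
          rw [← mul_sum, hQ, Finset.prod_univ_sum]
      _ ≤ (2 : ℝ) ^ M * ∏ _p : P, (2 : ℝ) := by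
          apply mul_le_mul_of_nonneg_left _ (by positivity)
          refine prod_le_prod (fun _ _ => sum_nonneg fun _ _ => by positivity) fun _ _ => ?_
          exact sum_geometric_two_le _
      _ = 2 ^ (M + P.card) := by
          rw [prod_const, card_univ, Fintype.card_coe, ← pow_add]
  exact_mod_cast h1

/-- a set of positive numbers with gaps -/
theorem gap_card {ι : Type*} (Z : Finset ι) (ℓ : ι → ℝ) (Y : ℝ) (h1 : ∀ z ∈ Z, 1 ≤ ℓ z)
    (hY : ∀ z ∈ Z, ℓ z ≤ Real.exp Y)
    (hgap : ∀ z ∈ Z, ∀ z' ∈ Z, z ≠ z' → ℓ z ≤ ℓ z' → 5 / 4 * ℓ z ≤ ℓ z') (hY0 : 0 ≤ Y) :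
    (Z.card : ℝ) ≤ 1 + 5 * Y := by
  classical
  have hlog : (1 : ℝ) / 5 ≤ Real.log (5 / 4) := by
    have := Real.one_sub_inv_le_log_of_pos (show (0 : ℝ) < 5 / 4 by norm_num)
    norm_num at this ⊢
    linarith
  have hinj : ∀ z ∈ Z, ∀ z' ∈ Z, ⌊5 * Real.log (ℓ z)⌋₊ = ⌊5 * Real.log (ℓ z')⌋₊ → z = z' := by
    have key : ∀ z ∈ Z, ∀ z' ∈ Z, z ≠ z' → ℓ z ≤ ℓ z' →
        ⌊5 * Real.log (ℓ z)⌋₊ ≠ ⌊5 * Real.log (ℓ z')⌋₊ := by
      intro z hz z' hz' hne hle heq
      have h2 := hgap z hz z' hz' hne hle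
      have h3 := h1 z hz
      have h4 : Real.log (5 / 4) + Real.log (ℓ z) ≤ Real.log (ℓ z') := by
        rw [← Real.log_mul (by norm_num) (by linarith)]
        exact Real.log_le_log (by linarith) h2
      have h5 : 5 * Real.log (ℓ z) + 1 ≤ 5 * Real.log (ℓ z') := by linarith
      have h6 : 0 ≤ 5 * Real.log (ℓ z) := by
        have := Real.log_nonneg h3
        linarith
      have h7 : ⌊5 * Real.log (ℓ z)⌋₊ + 1 ≤ ⌊5 * Real.log (ℓ z')⌋₊ := by
        rw [← Nat.floor_add_one h6]
        exact Nat.floor_mono h5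
      omega
    intro z hz z' hz' heq
    by_contra hne
    rcases le_total (ℓ z) (ℓ z') with h2 | h2
    · exact key z hz z' hz' hne h2 heq
    · exact key z' hz' z hz (Ne.symm hne) h2 heq.symm
  have hcard : Z.card ≤ (range (⌊5 * Y⌋₊ + 1)).card := by
    apply card_le_card_of_injOn (fun z => ⌊5 * Real.log (ℓ z)⌋₊)
    · intro z hz
      rw [mem_coe, mem_range, Nat.lt_succ_iff]
      apply Nat.floor_mono
      have h2 := hY z (mem_coe.1 hz)
      have h3 := h1 z (mem_coe.1 hz)
      have h4 := Real.log_le_log (by linarith) h2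
      rw [Real.log_exp] at h4
      linarith
    · intro z hz z' hz' heq
      exact hinj z (mem_coe.1 hz) z' (mem_coe.1 hz') heq
  rw [card_range] at hcard
  have h2 : (Z.card : ℝ) ≤ ⌊5 * Y⌋₊ + 1 := by exact_mod_cast hcard
  have h3 : (⌊5 * Y⌋₊ : ℝ) ≤ 5 * Y := Nat.floor_le (by linarith)
  linarith

/-- the logarithm of a number is at least the contribution of some primes -/
theorem sum_fac_le (D : ℕ) (hD : D ≠ 0) (P : Finset ℕ) :
    ∑ p ∈ P, (D.factorization p : ℝ) * Real.log p ≤ Real.log D := by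
  classical
  have h1 : ∑ p ∈ D.primeFactors, (D.factorization p : ℝ) * Real.log p = Real.log D := by
    have h1 : ((∏ p ∈ D.primeFactors, p ^ D.factorization p : ℕ) : ℝ) = D := by
      have := Nat.prod_factorization_pow_eq_self hD
      rw [Finsupp.prod, Nat.support_factorization] at this
      exact_mod_cast this
    rw [← h1]
    push_cast
    rw [Real.log_prod]
    · refine sum_congr rfl fun p _ => ?_
      rw [Real.log_pow]
    · intro p hp
      have : (0 : ℝ) < p := by exact_mod_cast (Nat.prime_of_mem_primeFactors hp).pos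
      positivity
  rw [← h1]
  have h0 : ∀ p : ℕ, 0 ≤ (D.factorization p : ℝ) * Real.log p := fun p =>
    mul_nonneg (Nat.cast_nonneg _) (Real.log_natCast_nonneg p)
  calc ∑ p ∈ P, (D.factorization p : ℝ) * Real.log p ≤
      ∑ p ∈ P ∪ D.primeFactors, (D.factorization p : ℝ) * Real.log p :=
        sum_le_sum_of_subset_of_nonneg subset_union_left fun p _ _ => h0 p
    _ = ∑ p ∈ D.primeFactors, (D.factorization p : ℝ) * Real.log p := by
        symm
        apply sum_subset subset_union_right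
        intro p _ hp
        rw [← Nat.support_factorization, Finsupp.notMem_support_iff] at hp
        rw [hp]
        simp

end Pool.MP_a95293_nt.TP
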