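import Pool.Agent.Lib_MP_a95293_tp.Hyp

/-!
# The number of exceptional pairs
-/

set_option autoImplicit false

namespace Pool.MP_a95293_nt.TP

open Finset Pool.MP_a95293_nt.RC

open Classical in
/-- the bad primes -/
noncomputable def bad (η : ℝ) (K : ℕ) (z : ℕ × ℕ) : Finset ℕ :=
  (pr3 z).primeFactors.filter fun p =>
    ((pr3 z).factorization p : ℝ) * Real.log p ≤ η * Real.log (z.1 + z.2 : ℕ) ∨
      ∃ k, 3 ≤ k ∧ k ≤ K ∧ k ∣ (pr3 z).factorization p

open Classical in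
/-- the bad primes of one kind in one of the three numbers -/
noncomputable def badk (η : ℝ) (z : ℕ × ℕ) (ik : Fin 3 × ℕ) : Finset ℕ :=
  (cfv ik.1 z).primeFactors.filter fun p => if ik.2 = 0 then
    ((cfv ik.1 z).factorization p : ℝ) * Real.log p ≤ η * Real.log (z.1 + z.2 : ℕ) else
      ik.2 ∣ (cfv ik.1 z).factorization p

/-- a sum over a covered set -/
theorem sum_cover {ι : Type} [DecidableEq ι] (s : Finset ι) (A : ι → Finset ℕ) (f : ℕ → ℝ)
    (hf : ∀ p, 0 ≤ f p) (B : Finset ℕ) (hB : ∀ p ∈ B, ∃ i ∈ s, p ∈ A i) :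
    ∑ p ∈ B, f p ≤ ∑ i ∈ s, ∑ p ∈ A i, f p := by
  classical
  calc ∑ p ∈ B, f p ≤ ∑ p ∈ B, ∑ i ∈ s, (if p ∈ A i then f p else 0) := by
        refine sum_le_sum fun p hp => ?_
        obtain ⟨i, hi, h⟩ := hB p hp
        have h1 : (if p ∈ A i then f p else 0) ≤ ∑ i ∈ s, (if p ∈ A i then f p else 0) :=
          single_le_sum (f := fun i => if p ∈ A i then f p else 0)
            (fun j _ => by split_ifs <;> simp [hf p]) hi
        rwa [if_pos h] at h1
    _ = ∑ i ∈ s, ∑ p ∈ B, (if p ∈ A i then f p else 0) := sum_comm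
    _ ≤ ∑ i ∈ s, ∑ p ∈ A i, f p := by
        refine sum_le_sum fun i _ => ?_
        rw [← sum_filter]
        apply sum_le_sum_of_subset_of_nonneg
        · intro p hp
          exact (mem_filter.1 hp).2
        · intro p _ _
          exact hf p

theorem bad_cover {η : ℝ} {K : ℕ} {z : ℕ × ℕ} (hz : Prm z) :
    ∀ p ∈ bad η K z, ∃ ik ∈ (univ : Finset (Fin 3)) ×ˢ insert 0 (Icc 3 K), p ∈ badk η z ik := by
  classical
  intro p hp
  unfold bad at hp
  rw [mem_filter] at hp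
  obtain ⟨hp, h⟩ := hp
  obtain ⟨i, hi⟩ := (mem_pr3 hz).1 hp
  rw [fact_cfv hz i hi] at h
  rcases h with h | ⟨k, h1, h2, h3⟩
  · refine ⟨(i, 0), ?_, ?_⟩
    · rw [mem_product]
      exact ⟨mem_univ _, mem_insert_self _ _⟩
    · unfold badk
      rw [mem_filter]
      exact ⟨hi, by simpa using h⟩
  · refine ⟨(i, k), ?_, ?_⟩
    · rw [mem_product]
      exact ⟨mem_univ _, mem_insert_of_mem (mem_Icc.2 ⟨h1, h2⟩)⟩
    · unfold badk
      rw [mem_filter]
      refine ⟨hi, ?_⟩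
      rw [if_neg]
      · exact h3
      · show k ≠ 0
        omega

/-- **Pairs with many bad primes are in one of the families.** -/
theorem fml_of_bad {X N k J K : ℕ} {x δ Y η θ ε : ℝ} {z : ℕ × ℕ} (hz : Prm z) (hX : rd (pr3 z) ≤ X)
    (hx : x = (X : ℝ)) (hx1 : 1 ≤ x) (hN : N = ⌊x ^ (1 - δ)⌋₊)
    (l1 : J * Real.log 2 ≤ Real.log (z.1 + z.2 : ℕ)) (l2 : 4 * k * Real.log k ≤ Real.log (z.1 + z.2 : ℕ))
    (l1' : (12 : ℕ) * Real.log 2 ≤ Real.log (z.1 + z.2 : ℕ))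
    (l2' : ∀ m ∈ Icc 3 K, 4 * m * Real.log m ≤ Real.log (z.1 + z.2 : ℕ))
    (l3 : 1 ≤ Real.log (z.1 + z.2 : ℕ))
    (up : Real.log (z.1 + z.2 : ℕ) ≤ Real.exp Y) (hηθ : η < θ) (hθ0 : 0 ≤ θ)
    (hδ0 : 0 ≤ δ) (ht : δ * (1 / (θ - η) + 1) ≤ ε / (3 * (K + 1)))
    (hbad : x ^ ε < ∏ p ∈ bad η K z, (p : ℝ)) :
    (∃ i, Fml k J θ Y N i z) ∨ ∃ m ∈ Icc 3 K, ∃ i, Fml m 12 0 Y N i z := by
  classical
  have hx0 : 0 < x := by linarith
  have hlx : 0 ≤ Real.log x := Real.log_nonneg hx1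
  have hpp : ∀ p ∈ bad η K z, (0 : ℝ) < p := fun p hp => by
    unfold bad at hp
    rw [mem_filter] at hp
    exact_mod_cast (Nat.prime_of_mem_primeFactors hp.1).pos
  have h1 : ε * Real.log x < ∑ p ∈ bad η K z, Real.log p := by
    rw [← Real.log_prod fun p hp => (hpp p hp).ne', ← Real.log_rpow hx0]
    exact Real.log_lt_log (Real.rpow_pos_of_pos hx0 _) hbad
  have h2 := sum_cover ((univ : Finset (Fin 3)) ×ˢ insert 0 (Icc 3 K)) (badk η z) (fun p => Real.log p)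
    (fun p => Real.log_natCast_nonneg p) (bad η K z) (bad_cover hz)
  have hcard : (((univ : Finset (Fin 3)) ×ˢ insert 0 (Icc 3 K)).card : ℝ) ≤ 3 * (K + 1) := by
    have h3 : ((univ : Finset (Fin 3)) ×ˢ insert 0 (Icc 3 K)).card ≤ 3 * (K + 1) := by
      rw [card_product, card_univ, Fintype.card_fin]
      apply Nat.mul_le_mul_left
      refine (card_insert_le _ _).trans ?_
      rw [Nat.card_Icc]
      omega
    exact_mod_cast h3
  have hε0 : 0 ≤ ε / (3 * (K + 1)) := by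
    refine le_trans ?_ ht
    have : 0 < θ - η := by linarith
    positivity
  obtain ⟨ik, hik, h3⟩ : ∃ ik ∈ (univ : Finset (Fin 3)) ×ˢ insert 0 (Icc 3 K),
      ε / (3 * (K + 1)) * Real.log x < ∑ p ∈ badk η z ik, Real.log p := by
    by_contra hc
    push Not at hc
    have h3 := sum_le_sum hc
    rw [sum_const, nsmul_eq_mul] at h3
    have h4 : (((univ : Finset (Fin 3)) ×ˢ insert 0 (Icc 3 K)).card : ℝ) *
        (ε / (3 * (K + 1)) * Real.log x) ≤ 3 * (K + 1) * (ε / (3 * (K + 1)) * Real.log x) :=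
      mul_le_mul_of_nonneg_right hcard (mul_nonneg hε0 hlx)
    have h5 : 3 * ((K : ℝ) + 1) * (ε / (3 * (K + 1)) * Real.log x) = ε * Real.log x := by
      have : (3 * ((K : ℝ) + 1)) ≠ 0 := by positivity
      field_simp
    linarith
  have hsub : badk η z ik ⊆ (cfv ik.1 z).primeFactors := by
    unfold badk
    exact filter_subset _ _
  have hδt : δ ≤ ε / (3 * (K + 1)) := by
    refine le_trans ?_ ht
    have h6 : 0 < θ - η := by linarith
    have h7 : 1 ≤ 1 / (θ - η) + 1 := by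
      have : 0 < 1 / (θ - η) := by positivity
      linarith
    exact le_mul_of_one_le_right hδ0 h7
  rw [mem_product, mem_insert] at hik
  by_cases h0 : ik.2 = 0
  · left
    refine ⟨ik.1, fml_n hz hX hx hx1 hN l1 l2 l3 up hηθ hθ0 ik.1 hsub ?_ ht h3.le⟩
    intro p hp
    unfold badk at hp
    rw [mem_filter, if_pos h0] at hp
    exact hp.2
  · right
    have hm : ik.2 ∈ Icc 3 K := hik.2.resolve_left h0
    refine ⟨ik.2, hm, fml_k hz hX hx hx1 hN l1' (l2' _ hm) l3 up ik.1 hsub ?_ ?_⟩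
    · intro p hp
      unfold badk at hp
      rw [mem_filter, if_neg h0] at hp
      exact hp.2
    · exact (mul_le_mul_of_nonneg_right hδt hlx).trans h3.le

/-- the bound for one family -/
noncomputable def Bd (A : ℕ) (Y : ℝ) (N : ℕ) : ℝ := A * (1 + 5 * Y) * (N * (1 + Real.log N) ^ A)

theorem fml_card {k J : ℕ} {θ Y : ℝ} (hk : 1 ≤ k) (hJ : 1 ≤ J) (hF : 5 / 2 ≤ k * (1 - θ - 2 / J)) (hY : 0 ≤ Y)
    {N : ℕ} (hN : 1 ≤ N) (i : Fin 3) (Z : Finset (ℕ × ℕ)) (hZ : ∀ z ∈ Z, Fml k J θ Y N i z) :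
    (Z.card : ℝ) ≤ Bd (CC k J) Y N :=
  fam_card hk hJ hF hY (cfe i) (cfw i) (cfw_inj i) hN Z hZ

/-- the constant of all the families -/
def AA (k J K : ℕ) : ℕ := 3 * CC k J + ∑ m ∈ Icc 3 K, 3 * CC m 12

/-- **The number of pairs in the families.** -/
theorem fmls_card {k J K : ℕ} {θ Y : ℝ} (hk : 1 ≤ k) (hJ : 1 ≤ J) (hF : 5 / 2 ≤ k * (1 - θ - 2 / J))
    (hY : 0 ≤ Y) {N : ℕ} (hN : 1 ≤ N) (Z : Finset (ℕ × ℕ))
    (hZ : ∀ z ∈ Z, (∃ i, Fml k J θ Y N i z) ∨ ∃ m ∈ Icc 3 K, ∃ i, Fml m 12 0 Y N i z) :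
    (Z.card : ℝ) ≤ Bd (AA k J K) Y N := by
  classical
  set Z1 : Fin 3 → Finset (ℕ × ℕ) := fun i => Z.filter fun z => Fml k J θ Y N i z with hZ1
  set Z2 : ℕ → Fin 3 → Finset (ℕ × ℕ) := fun m i => Z.filter fun z => Fml m 12 0 Y N i z with hZ2
  have hcov : Z ⊆ (univ.biUnion Z1) ∪ (Icc 3 K).biUnion fun m => univ.biUnion (Z2 m) := by
    intro z hz
    rw [mem_union]
    rcases hZ z hz with ⟨i, h⟩ | ⟨m, hm, i, h⟩
    · left
      rw [mem_biUnion]
      exact ⟨i, mem_univ _, mem_filter.2 ⟨hz, h⟩⟩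
    · right
      rw [mem_biUnion]
      refine ⟨m, hm, ?_⟩
      rw [mem_biUnion]
      exact ⟨i, mem_univ _, mem_filter.2 ⟨hz, h⟩⟩
  have hc : Z.card ≤ ∑ i, (Z1 i).card + ∑ m ∈ Icc 3 K, ∑ i, (Z2 m i).card := by
    refine (card_le_card hcov).trans ((card_union_le _ _).trans ?_)
    apply Nat.add_le_add card_biUnion_le
    refine card_biUnion_le.trans (sum_le_sum fun m _ => card_biUnion_le)
  have hN1 : (1 : ℝ) ≤ 1 + Real.log N := by
    have := Real.log_natCast_nonneg N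
    linarith
  have hmono : ∀ A, A ≤ AA k J K → Bd A Y N ≤ A * ((1 + 5 * Y) * (N * (1 + Real.log N) ^ (AA k J K))) := by
    intro A hA
    unfold Bd
    rw [mul_assoc]
    apply mul_le_mul_of_nonneg_left _ (Nat.cast_nonneg _)
    apply mul_le_mul_of_nonneg_left _ (by linarith)
    apply mul_le_mul_of_nonneg_left _ (Nat.cast_nonneg _)
    exact pow_le_pow_right₀ hN1 hA
  set U : ℝ := (1 + 5 * Y) * (N * (1 + Real.log N) ^ (AA k J K)) with hU
  have hb1 : ∀ i, ((Z1 i).card : ℝ) ≤ CC k J * U := by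
    intro i
    refine (fml_card hk hJ hF hY hN i (Z1 i) fun z hz => (mem_filter.1 hz).2).trans (hmono _ ?_)
    unfold AA
    omega
  have hb2 : ∀ m ∈ Icc 3 K, ∀ i, ((Z2 m i).card : ℝ) ≤ CC m 12 * U := by
    intro m hm i
    have hm3 : 3 ≤ m := (mem_Icc.1 hm).1
    have hm3' : (3 : ℝ) ≤ m := by exact_mod_cast hm3
    refine (fml_card (by omega) (by norm_num) ?_ hY hN i (Z2 m i) fun z hz => (mem_filter.1 hz).2).trans
      (hmono _ ?_)
    · push_cast
      linarith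
    · have h1 : 3 * CC m 12 ≤ ∑ m ∈ Icc 3 K, 3 * CC m 12 :=
        single_le_sum (f := fun m => 3 * CC m 12) (fun _ _ => Nat.zero_le _) hm
      unfold AA
      omega
  have hc' : (Z.card : ℝ) ≤ ∑ i, ((Z1 i).card : ℝ) + ∑ m ∈ Icc 3 K, ∑ i, ((Z2 m i).card : ℝ) := by
    exact_mod_cast hc
  refine hc'.trans ?_
  calc ∑ i, ((Z1 i).card : ℝ) + ∑ m ∈ Icc 3 K, ∑ i, ((Z2 m i).card : ℝ) ≤
        ∑ _i : Fin 3, (CC k J : ℝ) * U + ∑ m ∈ Icc 3 K, ∑ _i : Fin 3, (CC m 12 : ℝ) * U :=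
        add_le_add (sum_le_sum fun i _ => hb1 i) (sum_le_sum fun m hm => sum_le_sum fun i _ => hb2 m hm i)
    _ = (AA k J K : ℝ) * U := by
        have hA : (AA k J K : ℝ) = 3 * CC k J + ∑ m ∈ Icc 3 K, 3 * (CC m 12 : ℝ) := by
          unfold AA
          push_cast
          rfl
        rw [hA]
        simp only [sum_const, card_univ, Fintype.card_fin, nsmul_eq_mul]
        push_cast
        rw [add_mul, sum_mul]
        congr 1
        · ring
        · exact sum_congr rfl fun m _ => by ring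
    _ = Bd (AA k J K) Y N := by
        rw [hU]
        unfold Bd
        ring

end Pool.MP_a95293_nt.TP
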