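import Pool.Agent.Lib_MP_a95293_tp.Cls
import Pool.Agent.Lib_MP_a95293_rc.OmB
import Pool.Agent.Lib_MP_a95293_rc.CorE

/-!
# Summing over the known part of the radical
-/

set_option autoImplicit false

namespace Pool.MP_a95293_nt.TP

open Finset Pool.MP_a95293_nt.RC

/-- **A family with known primes of product at most `N`.** -/
theorem fam_card {k J : ℕ} {θ Y : ℝ} (hk : 1 ≤ k) (hJ : 1 ≤ J) (hF : 5 / 2 ≤ k * (1 - θ - 2 / J)) (hY : 0 ≤ Y)
    (e : Bool) (W : ℕ × ℕ → ℕ × ℕ) (hW : Function.Injective W) {N : ℕ} (hN : 1 ≤ N) (Z : Finset (ℕ × ℕ))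
    (hZ : ∀ z ∈ Z, ∃ P : Finset ℕ, (∀ p ∈ P, p.Prime) ∧ ∏ p ∈ P, p ≤ N ∧ Hyp k J θ Y P e (W z)) :
    (Z.card : ℝ) ≤ CC k J * (1 + 5 * Y) * (N * (1 + Real.log N) ^ (CC k J)) := by
  classical
  have h1 : ∀ z, ∃ P : Finset ℕ, z ∈ Z → ((∀ p ∈ P, p.Prime) ∧ ∏ p ∈ P, p ≤ N ∧ Hyp k J θ Y P e (W z)) := by
    intro z
    by_cases hz : z ∈ Z
    · obtain ⟨P, hP⟩ := hZ z hz
      exact ⟨P, fun _ => hP⟩
    · exact ⟨∅, fun h => absurd h hz⟩
  choose P hP using h1
  have hpf : ∀ z ∈ Z, (∏ p ∈ P z, p).primeFactors = P z := fun z hz =>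
    Nat.primeFactors_prod (hP z hz).1
  have hmem : ∀ z ∈ Z, (∏ p ∈ P z, p) ∈ (Icc 1 N).filter Squarefree := by
    intro z hz
    rw [mem_filter, mem_Icc]
    refine ⟨⟨prod_pos fun p hp => ((hP z hz).1 p hp).pos, (hP z hz).2.1⟩, ?_⟩
    apply Finset.squarefree_prod_of_pairwise_isCoprime
    · intro p hp q hq hpq
      exact Nat.coprime_iff_isRelPrime.1 ((Nat.coprime_primes ((hP z hz).1 p hp) ((hP z hz).1 q hq)).2 hpq)
    · intro p hp
      exact ((hP z hz).1 p hp).prime.squarefree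
  have hfib : ∀ R ∈ (Icc 1 N).filter Squarefree, ((Z.filter fun z => (∏ p ∈ P z, p) = R).card : ℝ) ≤
      (CC k J : ℝ) ^ (R.primeFactors.card + 1) * (1 + 5 * Y) := by
    intro R _
    rw [← card_image_of_injective _ hW]
    apply cls_card hk hJ hF hY (fun p hp => Nat.prime_of_mem_primeFactors hp) e
    intro w hw
    rw [mem_image] at hw
    obtain ⟨z, hz, rfl⟩ := hw
    rw [mem_filter] at hz
    obtain ⟨hz, rfl⟩ := hz
    rw [hpf z hz]
    exact (hP z hz).2.2
  have h2 : Z.card = ∑ R ∈ (Icc 1 N).filter Squarefree, (Z.filter fun z => (∏ p ∈ P z, p) = R).card :=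
    card_eq_sum_card_fiberwise hmem
  rw [h2, Nat.cast_sum]
  have h3 := sum_pow (CC k J) N hN
  have hC0 : (0 : ℝ) ≤ CC k J := Nat.cast_nonneg _
  calc ∑ R ∈ (Icc 1 N).filter Squarefree, ((Z.filter fun z => (∏ p ∈ P z, p) = R).card : ℝ) ≤
        ∑ R ∈ (Icc 1 N).filter Squarefree, (CC k J : ℝ) ^ (R.primeFactors.card + 1) * (1 + 5 * Y) :=
        sum_le_sum hfib
    _ = CC k J * (1 + 5 * Y) * ∑ R ∈ (Icc 1 N).filter Squarefree, (CC k J : ℝ) ^ R.primeFactors.card := by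
        rw [mul_sum]
        refine sum_congr rfl fun R _ => ?_
        rw [pow_succ]
        ring
    _ ≤ CC k J * (1 + 5 * Y) * (N * (1 + Real.log N) ^ (CC k J)) :=
        mul_le_mul_of_nonneg_left h3 (mul_nonneg hC0 (by linarith))

/-- the configurations: which of the three numbers is the value -/
def cfe (i : Fin 3) : Bool := decide (i = 0)

/-- the configurations: the other two numbers -/
def cfw (i : Fin 3) (z : ℕ × ℕ) : ℕ × ℕ :=
  if i = 0 then z else if i = 1 then (z.1 + z.2, z.1) else (z.1 + z.2, z.2)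

/-- the configurations: the value -/
def cfv (i : Fin 3) (z : ℕ × ℕ) : ℕ := if i = 0 then z.1 + z.2 else if i = 1 then z.2 else z.1

theorem cfw_inj (i : Fin 3) : Function.Injective (cfw i) := by
  intro z z' h
  unfold cfw at h
  fin_cases i
  · exact h
  · simp only [Fin.mk_one, Fin.isValue, one_ne_zero, if_false, if_true, Prod.mk.injEq] at h
    refine Prod.ext h.2 ?_
    omega
  · have h2 : ((2 : Fin 3) = 0) = False := by decide
    have h3 : ((2 : Fin 3) = 1) = False := by decide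
    simp only [Fin.reduceFinMk, Fin.isValue, h2, h3, if_false, Prod.mk.injEq] at h
    refine Prod.ext ?_ h.2
    omega

theorem cfw_Gd {z : ℕ × ℕ} (hz : Prm z) (i : Fin 3) : Gd (cfe i) (cfw i z) := by
  have h1 := hz.1
  have h2 := hz.2.1
  fin_cases i
  · exact ⟨h1, h2, hz.2.2, fun h => absurd h (by decide)⟩
  · refine ⟨?_, h1, ?_, fun _ => ?_⟩
    · show 0 < z.1 + z.2
      omega
    · exact hz.cop1.symm
    · show z.1 < z.1 + z.2
      omega
  · refine ⟨?_, h2, ?_, fun _ => ?_⟩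
    · show 0 < z.1 + z.2
      omega
    · exact hz.cop2.symm
    · show z.2 < z.1 + z.2
      omega

theorem cfw_Ht (z : ℕ × ℕ) (i : Fin 3) : Ht (cfe i) (cfw i z) = z.1 + z.2 := by
  fin_cases i <;> rfl

theorem cfw_Vl (z : ℕ × ℕ) (i : Fin 3) : Vl (cfe i) (cfw i z) = cfv i z := by
  fin_cases i
  · rfl
  · show z.1 + z.2 - z.1 = z.2
    omega
  · show z.1 + z.2 - z.2 = z.1
    omega

/-- the value divides the product -/
theorem cfv_dvd (z : ℕ × ℕ) (i : Fin 3) : cfv i z ∣ pr3 z := by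
  unfold pr3
  fin_cases i
  · exact Dvd.intro_left _ rfl
  · exact Dvd.dvd.mul_right (Dvd.intro_left _ rfl) _
  · exact Dvd.dvd.mul_right (Dvd.intro _ rfl) _

theorem cfv_pos {z : ℕ × ℕ} (hz : Prm z) (i : Fin 3) : 0 < cfv i z := by
  have h1 := hz.1
  have h2 := hz.2.1
  fin_cases i
  · show 0 < z.1 + z.2
    omega
  · exact h2
  · exact h1

theorem cfv_le (z : ℕ × ℕ) (i : Fin 3) : cfv i z ≤ z.1 + z.2 := by
  fin_cases i
  · exact le_rfl
  · show z.2 ≤ z.1 + z.2
    omega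
  · show z.1 ≤ z.1 + z.2
    omega

/-- different numbers are coprime -/
theorem cfv_cop {z : ℕ × ℕ} (hz : Prm z) {i j : Fin 3} (hij : i ≠ j) : (cfv i z).Coprime (cfv j z) := by
  fin_cases i <;> fin_cases j <;> first | exact absurd rfl hij | skip
  · exact hz.cop2.symm
  · exact hz.cop1.symm
  · exact hz.cop2
  · exact hz.2.2.symm
  · exact hz.cop1
  · exact hz.2.2

/-- the first number of a configuration is one of the three numbers -/
theorem cfw_fst (z : ℕ × ℕ) (i : Fin 3) : ∃ j, j ≠ i ∧ (cfw i z).1 = cfv j z := by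
  fin_cases i
  · exact ⟨2, by decide, rfl⟩
  · exact ⟨0, by decide, rfl⟩
  · exact ⟨0, by decide, rfl⟩

/-- the second number of a configuration is one of the three numbers -/
theorem cfw_snd (z : ℕ × ℕ) (i : Fin 3) : ∃ j, j ≠ i ∧ (cfw i z).2 = cfv j z := by
  fin_cases i
  · exact ⟨1, by decide, rfl⟩
  · exact ⟨2, by decide, rfl⟩
  · exact ⟨1, by decide, rfl⟩

/-- exponents in the product and in the numbers -/
theorem fact_cfv {z : ℕ × ℕ} (hz : Prm z) (i : Fin 3) {p : ℕ} (hp : p ∈ (cfv i z).primeFactors) :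
    (pr3 z).factorization p = (cfv i z).factorization p := by
  obtain ⟨f1, f2, f3⟩ := fact_pr3 hz p
  fin_cases i
  · exact f3 hp
  · exact f2 hp
  · exact f1 hp

/-- the primes of the product -/
theorem mem_pr3 {z : ℕ × ℕ} (hz : Prm z) {p : ℕ} : p ∈ (pr3 z).primeFactors ↔ ∃ i, p ∈ (cfv i z).primeFactors := by
  rw [primeFactors_pr3 hz, mem_union, mem_union]
  constructor
  · rintro ((h | h) | h)
    · exact ⟨2, h⟩
    · exact ⟨1, h⟩
    · exact ⟨0, h⟩
  · rintro ⟨i, h⟩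
    fin_cases i
    · exact Or.inr h
    · exact Or.inl (Or.inr h)
    · exact Or.inl (Or.inl h)

end Pool.MP_a95293_nt.TP
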