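import Pool.Agent.Lib_MP_a95293_tp.Adm

/-!
# The structure theorem for admissible triples
-/

set_option autoImplicit false

namespace Pool.MP_a95293_nt.TP

open Finset Pool.MP_a95293_nt.RC

/-- the triples that are not of the required shape -/
def Exc (ε η δ : ℝ) (K X : ℕ) : Set (Fin 3 → ℤ) :=
  {x | Adm x ∧ radZ (∏ j, x j) ≤ X ∧ (ht3 x : ℝ) ≤ Real.exp (Real.exp ((X : ℝ) ^ δ)) ∧
    ¬ ((X : ℝ) ^ K < ht3 x ∧ Shp ((X : ℝ) ^ ε) η K x)}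

theorem exc_finite (ε η δ : ℝ) (K X : ℕ) : (Exc ε η δ K X).Finite :=
  (adm_finite X).subset fun _ hx => ⟨hx.1, hx.2.1⟩

/-- **Structure of the triples**, from the count of the triples of polynomial height. -/
theorem final_of (hpoly : ∀ (M : ℕ) {e : ℝ}, 0 < e → ∃ X₀ : ℕ, ∀ X : ℕ, X₀ ≤ X → ∀ Z : Finset (ℕ × ℕ),
      (∀ z ∈ Z, Prm z ∧ rd (pr3 z) ≤ X ∧ z.1 + z.2 ≤ X ^ M) → (Z.card : ℝ) ≤ (X : ℝ) ^ (2 / 3 + e))
    {η : ℝ} (hη : η < 1) (K : ℕ) :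
    ∃ c : ℝ, 0 < c ∧ ∀ ε : ℝ, 0 < ε → ε ≤ 1 → ∃ X₀ : ℕ, ∀ X : ℕ, X₀ ≤ X →
      (Exc ε η (c * ε) K X).Finite ∧
      ((Exc ε η (c * ε) K X).ncard : ℝ) ≤ (X : ℝ) ^ (1 - c * ε) := by
  classical
  set η' : ℝ := max η (1 / 2) with hη'
  have hη'1 : η' < 1 := max_lt hη (by norm_num)
  have hη'2 : 1 / 2 ≤ η' := le_max_right _ _
  obtain ⟨c₀, hc₀, h3c, hc₁⟩ := exc_pairs (by linarith : 0 ≤ η') hη'1 K
  obtain ⟨X₂, hX₂⟩ := hpoly (2 * K + 1) (e := 1 / 12) (by norm_num)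
  refine ⟨c₀ / 2, by linarith, fun ε hε hε1 => ?_⟩
  obtain ⟨X₁, hX₁⟩ := hc₁ ε hε hε1
  set δ₀ : ℝ := c₀ * ε with hδ₀'
  have hδ₀ : 0 < δ₀ := mul_pos hc₀ hε
  have h3δ : 3 * δ₀ < 1 := by
    have h1 : c₀ * ε ≤ c₀ * 1 := mul_le_mul_of_nonneg_left hε1 hc₀.le
    linarith
  set δ : ℝ := c₀ / 2 * ε with hδ
  have hδ2 : δ = δ₀ / 2 := by
    rw [hδ, hδ₀']
    ring
  have e1 : ∀ᶠ x : ℝ in Filter.atTop, (72 : ℝ) ≤ x ^ (1 / 12 : ℝ) :=
    (tendsto_rpow_atTop (by norm_num)).eventually_ge_atTop _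
  have e2 : ∀ᶠ x : ℝ in Filter.atTop, (72 : ℝ) ≤ x ^ δ :=
    (tendsto_rpow_atTop (by linarith : 0 < δ)).eventually_ge_atTop _
  obtain ⟨X₃, hX₃⟩ := Filter.eventually_atTop.1 (tendsto_natCast_atTop_atTop.eventually
    ((e1.and e2).and (Filter.eventually_ge_atTop (1 : ℝ))))
  refine ⟨max X₁ (max X₂ X₃), fun X hX => ⟨exc_finite _ _ _ _ _, ?_⟩⟩
  obtain ⟨⟨g1, g2⟩, g3⟩ := hX₃ X (((le_max_right _ _).trans (le_max_right _ _)).trans hX)
  have hX₁' := hX₁ X ((le_max_left _ _).trans hX)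
  have hX₂' := hX₂ X (((le_max_left _ _).trans (le_max_right _ _)).trans hX)
  set x : ℝ := (X : ℝ) with hx
  have hx0 : 0 < x := by linarith
  set Z := (exc_finite ε η δ K X).toFinset with hZ
  have hmemZ : ∀ y ∈ Z, y ∈ Exc ε η δ K X := fun y hy => by
    rw [hZ, Set.Finite.mem_toFinset] at hy
    exact hy
  rw [Set.ncard_eq_toFinset_card _ (exc_finite ε η δ K X)]
  have h1 : ∀ y : Fin 3 → ℤ, ∃ z : ℕ × ℕ, y ∈ Z → (Prm z ∧ radZ (∏ i, y i) = rd (pr3 z) ∧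
      (∀ j, ∃ i, (y j).natAbs = cfv i z) ∧ ∃ j, (y j).natAbs = z.1 + z.2) := by
    intro y
    by_cases hy : y ∈ Z
    · obtain ⟨z, hz⟩ := adm_full (hmemZ y hy).1
      exact ⟨z, fun _ => hz⟩
    · exact ⟨(0, 0), fun h => absurd h hy⟩
  choose ζ hζ using h1
  have hc1 : Z.card ≤ 36 * (Z.image ζ).card := by
    apply card_le_mul_card_image
    intro z _
    apply adm_fiber z
    intro y hy
    rw [mem_filter] at hy
    obtain ⟨hy, rfl⟩ := hy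
    refine ⟨(hmemZ y hy).1.2.1, fun j => ?_⟩
    obtain ⟨i, hi⟩ := (hζ y hy).2.2.1 j
    rw [hi]
    fin_cases i
    · exact Or.inr (Or.inr rfl)
    · exact Or.inr (Or.inl rfl)
    · exact Or.inl rfl
  set Y1 := (Z.image ζ).filter fun z => z.1 + z.2 ≤ X ^ (2 * K + 1) with hY1
  set Y2 := (Z.image ζ).filter fun z => ¬ z.1 + z.2 ≤ X ^ (2 * K + 1) with hY2
  have hsplit : Y1.card + Y2.card = (Z.image ζ).card := card_filter_add_card_filter_not _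
  have hb1 : (Y1.card : ℝ) ≤ x ^ (2 / 3 + 1 / 12 : ℝ) := by
    apply hX₂'
    intro z hz
    rw [hY1, mem_filter, mem_image] at hz
    obtain ⟨⟨y, hy, rfl⟩, hz⟩ := hz
    obtain ⟨f1, f2, _⟩ := hζ y hy
    exact ⟨f1, f2 ▸ (hmemZ y hy).2.1, hz⟩
  have hb2 : (Y2.card : ℝ) ≤ x ^ (1 - δ₀) := by
    apply hX₁'
    intro z hz
    rw [hY2, mem_filter, mem_image, not_le] at hz
    obtain ⟨⟨y, hy, rfl⟩, hbig⟩ := hz
    obtain ⟨f1, f2, f3, f4⟩ := hζ y hy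
    obtain ⟨k1, k2, k3, k4⟩ := hmemZ y hy
    have hR : rd (pr3 (ζ y)) ≤ X := f2 ▸ k2
    have hht : ht3 y = (ζ y).1 + (ζ y).2 := ht3_eq f3 f4
    have hc2 : 2 ≤ (ζ y).1 + (ζ y).2 := by
      have h1 := f1.1
      have h2 := f1.2.1
      omega
    refine ⟨f1, hR, ?_, ?_⟩
    · rw [Real.log_le_iff_le_exp (by exact_mod_cast (by omega : 0 < (ζ y).1 + (ζ y).2)), ← hht]
      refine k3.trans (Real.exp_le_exp.2 (Real.exp_le_exp.2 ?_))
      exact Real.rpow_le_rpow_of_exponent_le g3 (by linarith)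
    · by_contra hbad
      rw [not_lt] at hbad
      apply k4
      refine ⟨?_, ?_⟩
      · rw [hht]
        have h1 : X ^ K ≤ X ^ (2 * K + 1) := by
          apply Nat.pow_le_pow_right _ (by omega)
          have : (1 : ℝ) ≤ (X : ℝ) := g3
          exact_mod_cast this
        exact_mod_cast lt_of_le_of_lt h1 hbig
      · refine (shp_of f1 hη'2 hR f3 f4 hbig hbad).mono (le_max_left _ _) ?_
        rw [hht]
        omega
  have hc2 : (Z.card : ℝ) ≤ 36 * (x ^ (2 / 3 + 1 / 12 : ℝ) + x ^ (1 - δ₀)) := by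
    have h1 : (Z.card : ℝ) ≤ 36 * ((Z.image ζ).card : ℝ) := by exact_mod_cast hc1
    have h2 : ((Z.image ζ).card : ℝ) = Y1.card + Y2.card := by
      rw [← hsplit]
      push_cast
      ring
    rw [h2] at h1
    linarith
  have f1 : 72 * x ^ (2 / 3 + 1 / 12 : ℝ) ≤ x ^ (1 - δ) := by
    calc 72 * x ^ (2 / 3 + 1 / 12 : ℝ) ≤ x ^ (1 / 12 : ℝ) * x ^ (2 / 3 + 1 / 12 : ℝ) :=
          mul_le_mul_of_nonneg_right g1 (Real.rpow_nonneg hx0.le _)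
      _ = x ^ (5 / 6 : ℝ) := by
          rw [← Real.rpow_add hx0]
          congr 1
          norm_num
      _ ≤ x ^ (1 - δ) := Real.rpow_le_rpow_of_exponent_le g3 (by linarith)
  have f2 : 72 * x ^ (1 - δ₀) ≤ x ^ (1 - δ) := by
    calc 72 * x ^ (1 - δ₀) ≤ x ^ δ * x ^ (1 - δ₀) :=
          mul_le_mul_of_nonneg_right g2 (Real.rpow_nonneg hx0.le _)
      _ = x ^ (1 - δ) := by
          rw [← Real.rpow_add hx0]
          congr 1
          rw [hδ2]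
          ring
  linarith

end Pool.MP_a95293_nt.TP
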