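import Pool.Agent.Lib_MP_a95293_tp.Fam

/-!
# The number of integers with given radical
-/

set_option autoImplicit false

namespace Pool.MP_a95293_nt.TP

open Finset Pool.MP_a95293_nt.RC

/-- the Euler factor -/
private theorem PolyA_factor {σ : ℝ} (hσ : 0 < σ) {p : ℕ} (hp : 2 ≤ p) :
    0 < (p : ℝ) ^ (-σ) ∧ (p : ℝ) ^ (-σ) ≤ (2 : ℝ) ^ (-σ) ∧ (p : ℝ) ^ (-σ) < 1 := by
  have hp' : (2 : ℝ) ≤ p := by exact_mod_cast hp
  refine ⟨Real.rpow_pos_of_pos (by linarith) _, ?_, ?_⟩
  · exact Real.rpow_le_rpow_of_nonpos (by norm_num) hp' (by linarith)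
  · exact Real.rpow_lt_one_of_one_lt_of_neg (by linarith) (by linarith)

/-- **Rankin's bound** for the number of integers with given prime divisors. -/
theorem rankin {σ : ℝ} (hσ : 0 < σ) : ∃ C : ℝ, 1 ≤ C ∧ ∀ (N : ℕ) (P S : Finset ℕ), 1 ≤ N →
    (∀ n ∈ S, 0 < n ∧ n ≤ N ∧ n.primeFactors = P) → (S.card : ℝ) ≤ C * (N : ℝ) ^ σ := by
  classical
  set y : ℕ → ℝ := fun p => (p : ℝ) ^ (-σ) with hy
  set B : ℝ := max 1 ((2 : ℝ) ^ (-σ) / (1 - (2 : ℝ) ^ (-σ))) with hB
  set T : ℕ := ⌈(2 : ℝ) ^ (1 / σ)⌉₊ with hT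
  have hB1 : 1 ≤ B := le_max_left _ _
  refine ⟨B ^ T, one_le_pow₀ hB1, fun N P S hN hS => ?_⟩
  rcases S.eq_empty_or_nonempty with he | ⟨n0, hn0⟩
  · rw [he, card_empty, Nat.cast_zero]
    positivity
  have hP : ∀ p ∈ P, p.Prime := by
    intro p hp
    rw [← (hS n0 hn0).2.2] at hp
    exact Nat.prime_of_mem_primeFactors hp
  have hN0 : (0 : ℝ) < N := by exact_mod_cast hN
  -- the weight of a number
  have hw : ∀ n ∈ S, (1 : ℝ) ≤ (N : ℝ) ^ σ * ∏ p : P, y p ^ n.factorization p := by
    intro n hn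
    obtain ⟨h1, h2, h3⟩ := hS n hn
    have hn0' : (0 : ℝ) < n := by exact_mod_cast h1
    have e1 : (n : ℝ) = ∏ p ∈ P, (p : ℝ) ^ n.factorization p := by
      conv_lhs => rw [← Nat.prod_factorization_pow_eq_self h1.ne']
      rw [Finsupp.prod, Nat.support_factorization, h3]
      push_cast
      rfl
    have e2 : ∏ p : P, y p ^ n.factorization p = (n : ℝ) ^ (-σ) := by
      rw [prod_coe_sort P fun p => y p ^ n.factorization p]
      conv_rhs => rw [e1]
      rw [← Real.finset_prod_rpow P _ fun p _ => by positivity]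
      refine prod_congr rfl fun p hp => ?_
      simp only [hy]
      rw [← Real.rpow_natCast, ← Real.rpow_natCast, ← Real.rpow_mul (Nat.cast_nonneg _),
        ← Real.rpow_mul (Nat.cast_nonneg _)]
      congr 1
      ring
    rw [e2, Real.rpow_neg hn0'.le, ← div_eq_mul_inv, one_le_div (Real.rpow_pos_of_pos hn0' _)]
    exact Real.rpow_le_rpow hn0'.le (by exact_mod_cast h2) hσ.le
  have h1 : (S.card : ℝ) ≤ (N : ℝ) ^ σ * ∑ n ∈ S, ∏ p : P, y p ^ n.factorization p := by
    rw [mul_sum]
    calc (S.card : ℝ) = ∑ _n ∈ S, (1 : ℝ) := by rw [sum_const, nsmul_eq_mul, mul_one]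
      _ ≤ _ := sum_le_sum hw
  -- expand the product
  have h2 : ∑ n ∈ S, ∏ p : P, y p ^ n.factorization p ≤ ∏ p : P, ∑ a ∈ Ico 1 (N + 1), y p ^ a := by
    rw [prod_univ_sum]
    set φ : ℕ → (P → ℕ) := fun n p => n.factorization p with hφ
    have hinj : Set.InjOn φ S := by
      intro n hn n' hn' h
      obtain ⟨g1, _, g3⟩ := hS n hn
      obtain ⟨g1', _, g3'⟩ := hS n' hn'
      apply Nat.eq_of_factorization_eq g1.ne' g1'.ne'
      intro p
      by_cases hp : p ∈ P
      · exact congrFun h ⟨p, hp⟩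
      · have z1 : n.factorization p = 0 := by
          rw [← Finsupp.notMem_support_iff, Nat.support_factorization, g3]
          exact hp
        have z2 : n'.factorization p = 0 := by
          rw [← Finsupp.notMem_support_iff, Nat.support_factorization, g3']
          exact hp
        rw [z1, z2]
    have e1 : ∑ n ∈ S, ∏ p : P, y p ^ n.factorization p = ∑ x ∈ S.image φ, ∏ p : P, y p ^ x p := by
      rw [sum_image hinj]
    rw [e1]
    apply sum_le_sum_of_subset_of_nonneg
    · intro x hx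
      rw [mem_image] at hx
      obtain ⟨n, hn, rfl⟩ := hx
      obtain ⟨g1, g2, g3⟩ := hS n hn
      rw [Fintype.mem_piFinset]
      intro p
      rw [mem_Ico]
      have hpn : (p : ℕ) ∈ n.primeFactors := by
        rw [g3]
        exact p.2
      refine ⟨?_, ?_⟩
      · exact (Nat.prime_of_mem_primeFactors hpn).factorization_pos_of_dvd g1.ne'
          (Nat.dvd_of_mem_primeFactors hpn)
      · exact lt_of_lt_of_le (Nat.factorization_lt _ g1.ne') (by omega)
    · intro x _ _
      exact prod_nonneg fun p _ => pow_nonneg (Real.rpow_nonneg (Nat.cast_nonneg _) _) _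
  -- the Euler product
  have h3 : ∏ p : P, ∑ a ∈ Ico 1 (N + 1), y p ^ a ≤ B ^ T := by
    rw [prod_coe_sort P fun p => ∑ a ∈ Ico 1 (N + 1), y p ^ a]
    have hb : ∀ p ∈ P, ∑ a ∈ Ico 1 (N + 1), y p ^ a ≤ if p < T then B else 1 := by
      intro p hp
      obtain ⟨f1, f2, f3⟩ := PolyA_factor hσ (hP p hp).two_le
      have g1 : ∑ a ∈ Ico 1 (N + 1), y p ^ a ≤ y p ^ 1 / (1 - y p) :=
        geom_sum_Ico_le_of_lt_one f1.le f3
      rw [pow_one] at g1
      have h20 : (2 : ℝ) ^ (-σ) < 1 := Real.rpow_lt_one_of_one_lt_of_neg (by norm_num) (by linarith)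
      split_ifs with hpT
      · refine g1.trans (le_trans ?_ (le_max_right _ _))
        have f1' : 0 < y p := f1
        have f2' : y p ≤ (2 : ℝ) ^ (-σ) := f2
        exact div_le_div₀ (f1'.le.trans f2') f2' (by linarith) (by linarith)
      · refine g1.trans ?_
        rw [not_lt] at hpT
        have k1 : (2 : ℝ) ^ (1 / σ) ≤ p := (Nat.le_ceil _).trans (by exact_mod_cast hpT)
        have k2 : (2 : ℝ) ≤ (p : ℝ) ^ σ := by
          have k3 : ((2 : ℝ) ^ (1 / σ)) ^ σ ≤ (p : ℝ) ^ σ :=
            Real.rpow_le_rpow (by positivity) k1 hσ.le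
          rwa [← Real.rpow_mul (by norm_num), one_div_mul_cancel hσ.ne', Real.rpow_one] at k3
        have k4 : y p ≤ 1 / 2 := by
          simp only [hy]
          rw [Real.rpow_neg (Nat.cast_nonneg _), ← one_div]
          exact one_div_le_one_div_of_le (by norm_num) k2
        rw [div_le_one (by linarith)]
        linarith
    calc ∏ p ∈ P, ∑ a ∈ Ico 1 (N + 1), y p ^ a ≤ ∏ p ∈ P, if p < T then B else 1 :=
          prod_le_prod (fun p _ => sum_nonneg fun a _ => pow_nonneg (Real.rpow_nonneg (Nat.cast_nonneg _) _) _) hb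
      _ = B ^ (P.filter fun p => p < T).card := by
          rw [prod_ite, prod_const, prod_const_one, mul_one]
      _ ≤ B ^ T := by
          apply pow_le_pow_right₀ hB1
          calc (P.filter fun p => p < T).card ≤ (range T).card := by
                apply card_le_card
                intro p hp
                rw [mem_filter] at hp
                exact mem_range.2 hp.2
            _ = T := card_range T
  calc (S.card : ℝ) ≤ (N : ℝ) ^ σ * ∑ n ∈ S, ∏ p : P, y p ^ n.factorization p := h1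
    _ ≤ (N : ℝ) ^ σ * B ^ T := mul_le_mul_of_nonneg_left (h2.trans h3) (Real.rpow_nonneg hN0.le _)
    _ = B ^ T * (N : ℝ) ^ σ := mul_comm _ _

end Pool.MP_a95293_nt.TP
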