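import Pool.Agent.Lib_MP_a95293_tp.Gap

/-!
# Two triples of the same class
-/

set_option autoImplicit false

namespace Pool.MP_a95293_nt.TP

open Finset Pool.MP_a95293_nt.RC

/-- `w = (u, v)` is a coprime pair of positive integers, with `v < u` if `e` is false; the third
number is `u + v` or `u - v` -/
structure Gd (e : Bool) (w : ℕ × ℕ) : Prop where
  p1 : 0 < w.1
  p2 : 0 < w.2
  cop : w.1.Coprime w.2
  lt : e = false → w.2 < w.1

/-- the third number -/
def Vl (e : Bool) (w : ℕ × ℕ) : ℕ := if e then w.1 + w.2 else w.1 - w.2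

/-- the height -/
def Ht (e : Bool) (w : ℕ × ℕ) : ℕ := if e then w.1 + w.2 else w.1

/-- the second coefficient -/
def be (e : Bool) (k b : ℕ) : ℤ := if e then -(al k b : ℤ) else (al k b : ℤ)

/-- the closeness of `u` and `v` -/
noncomputable def gg (e : Bool) (w : ℕ × ℕ) : ℝ :=
  if e then 0 else max 0 (Real.log w.2 - Real.log (Vl e w))

theorem Gd.vl_pos {e : Bool} {w : ℕ × ℕ} (h : Gd e w) : 0 < Vl e w := by
  unfold Vl
  cases e
  · have := h.lt rfl
    simp
    omega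
  · have := h.p1
    simp
    omega

theorem Gd.ht_pos {e : Bool} {w : ℕ × ℕ} (h : Gd e w) : 0 < Ht e w := by
  have := h.p1
  unfold Ht
  cases e <;> simp <;> omega

theorem Gd.le1 {e : Bool} {w : ℕ × ℕ} (_ : Gd e w) : w.1 ≤ Ht e w := by
  unfold Ht
  cases e <;> simp

theorem Gd.le2 {e : Bool} {w : ℕ × ℕ} (h : Gd e w) : w.2 ≤ Ht e w := by
  unfold Ht
  cases e
  · have := h.lt rfl
    simp
    omega
  · simp

theorem Gd.le3 {e : Bool} {w : ℕ × ℕ} (_ : Gd e w) : Vl e w ≤ Ht e w := by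
  unfold Ht Vl
  cases e <;> simp

theorem Gd.eq3 {e : Bool} {w : ℕ × ℕ} (h : Gd e w) (k : ℕ) :
    Eq3 k (al k w.1) (be e k w.2) (rt k w.1) (rt k w.2) (Vl e w) := by
  have h1 := al_mul k w.1 h.p1.ne'
  have h2 := al_mul k w.2 h.p2.ne'
  have e1 : (al k w.1 : ℤ) * (rt k w.1 : ℤ) ^ k = w.1 := by exact_mod_cast h1
  have e3 : (al k w.2 : ℤ) * (rt k w.2 : ℤ) ^ k = w.2 := by exact_mod_cast h2
  have hc := Nat.isCoprime_iff_coprime.2 h.cop
  refine ⟨by exact_mod_cast rt_pos k w.1, by exact_mod_cast rt_pos k w.2, ?_, ?_⟩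
  · cases e
    · have e2 : be false k w.2 * (rt k w.2 : ℤ) ^ k = w.2 := by
        unfold be
        simpa using e3
      rw [e1, e2]
      exact hc
    · have e2 : be true k w.2 * (rt k w.2 : ℤ) ^ k = -(w.2 : ℤ) := by
        unfold be
        simp only [if_true]
        linarith
      rw [e1, e2]
      exact hc.neg_right
  · cases e
    · have e2 : be false k w.2 * (rt k w.2 : ℤ) ^ k = w.2 := by
        unfold be
        simpa using e3
      have := h.lt rfl
      rw [e1, e2]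
      unfold Vl
      simp only [Bool.false_eq_true, if_false]
      rw [Nat.cast_sub this.le]
    · have e2 : be true k w.2 * (rt k w.2 : ℤ) ^ k = -(w.2 : ℤ) := by
        unfold be
        simp only [if_true]
        linarith
      rw [e1, e2]
      unfold Vl
      simp only [if_true]
      push_cast
      ring

/-- coprime positive pairs with equal ratio are equal -/
private theorem Two_eq {x y x' y' : ℤ} (hx : 0 < x) (hx' : 0 < x')
    (h : IsCoprime x y) (h' : IsCoprime x' y') (e : x * y' = x' * y) : x = x' ∧ y = y' := by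
  have h1 : x ∣ x' := h.dvd_of_dvd_mul_right (Dvd.intro _ e)
  have h2 : x' ∣ x := h'.dvd_of_dvd_mul_right (Dvd.intro _ e.symm)
  have h3 : x = x' := Int.dvd_antisymm hx.le hx'.le h1 h2
  refine ⟨h3, ?_⟩
  rw [h3] at e
  exact (mul_left_cancel₀ hx'.ne' e).symm

/-- different pairs of the same class have different ratios -/
theorem Gd.ne_of {e : Bool} {w w' : ℕ × ℕ} (h : Gd e w) (h' : Gd e w') {k : ℕ} (hk : 1 ≤ k)
    (hα : al k w.1 = al k w'.1) (hβ : al k w.2 = al k w'.2) (hne : w ≠ w') :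
    (rt k w.1 : ℤ) * (rt k w'.2 : ℤ) ≠ (rt k w'.1 : ℤ) * (rt k w.2 : ℤ) := by
  intro hc
  apply hne
  have hcop : ∀ {z : ℕ × ℕ}, Gd e z → IsCoprime (rt k z.1 : ℤ) (rt k z.2 : ℤ) := by
    intro z hz
    have h3 := (hz.eq3 k).cop.of_mul_left_right.of_mul_right_right
    exact (IsCoprime.pow_iff (by omega) (by omega)).1 h3
  obtain ⟨e1, e2⟩ := Two_eq (by exact_mod_cast rt_pos k w.1) (by exact_mod_cast rt_pos k w'.1)
    (hcop h) (hcop h') hc
  have e3 : rt k w.1 = rt k w'.1 := by exact_mod_cast e1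
  have e4 : rt k w.2 = rt k w'.2 := by exact_mod_cast e2
  refine Prod.ext ?_ ?_
  · rw [← al_mul k w.1 h.p1.ne', ← al_mul k w'.1 h'.p1.ne', hα, e3]
  · rw [← al_mul k w.2 h.p2.ne', ← al_mul k w'.2 h'.p2.ne', hβ, e4]

/-- **The gap inequality.** -/
theorem gap_two {k : ℕ} (hk : 1 ≤ k) {e : Bool} {w w' : ℕ × ℕ} (h : Gd e w) (h' : Gd e w')
    (hα : al k w.1 = al k w'.1) (hβ : al k w.2 = al k w'.2) (T : Finset ℕ)
    (hT : ∀ p ∈ T, p.Prime ∧ p ∣ Vl e w ∧ p ∣ Vl e w')
    (hcl : ∀ p ∈ T, cls p (rt k w.1) (rt k w.2) = cls p (rt k w'.1) (rt k w'.2)) (f : ℕ → ℝ) (g : ℝ)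
    (hf : ∀ p ∈ T, 0 ≤ f p) (hg : 0 ≤ g) (hL0 : 0 ≤ Real.log (Ht e w))
    (hLL : Real.log (Ht e w) ≤ Real.log (Ht e w'))
    (h1 : ∀ p ∈ T, f p * Real.log (Ht e w) ≤ (Vl e w).factorization p * Real.log p)
    (h2 : ∀ p ∈ T, f p * Real.log (Ht e w') ≤ (Vl e w').factorization p * Real.log p)
    (h3 : g * Real.log (Ht e w) ≤ gg e w) (h4 : g * Real.log (Ht e w') ≤ gg e w') (hne : w ≠ w') :
    (∑ p ∈ T, f p + g) * Real.log (Ht e w) ≤
      Real.log k + (Real.log (Ht e w) + Real.log (Ht e w')) / k := by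
  set L := Real.log (Ht e w) with hL
  set L' := Real.log (Ht e w') with hL'
  have hE := h.eq3 k
  have hE' := h'.eq3 k
  rw [← hα] at hE'
  have hβ' : be e k w'.2 = be e k w.2 := by
    unfold be
    rw [hβ]
  rw [hβ'] at hE'
  have hne' := h.ne_of h' hk hα hβ hne
  have hmo : ∀ p ∈ T, (mo p : ℤ) ∣ (rt k w.1 : ℤ) * (rt k w'.2 : ℤ) - (rt k w'.1 : ℤ) * (rt k w.2 : ℤ) := by
    intro p hp
    obtain ⟨hpp, hd, hd'⟩ := hT p hp
    exact cls_eq hpp (hE.not_dvd hk hpp hd).2.2.2 (hE'.not_dvd hk hpp hd').2.2.2 (hcl p hp)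
  have hmo1 : ∀ p ∈ T, (p : ℤ) ∣ (rt k w.1 : ℤ) * (rt k w'.2 : ℤ) - (rt k w'.1 : ℤ) * (rt k w.2 : ℤ) := by
    intro p hp
    have h5 := hmo p hp
    unfold mo at h5
    by_cases hp2 : p = 2
    · rw [if_pos hp2] at h5
      subst hp2
      exact (by norm_num : ((2 : ℕ) : ℤ) ∣ ((4 : ℕ) : ℤ)).trans h5
    · rw [if_neg hp2] at h5
      exact h5
  have hmo2 : 2 ∈ T → (4 : ℤ) ∣ (rt k w.1 : ℤ) * (rt k w'.2 : ℤ) - (rt k w'.1 : ℤ) * (rt k w.2 : ℤ) := by
    intro h2T
    have h5 := hmo 2 h2T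
    unfold mo at h5
    rw [if_pos rfl] at h5
    exact_mod_cast h5
  have low := gap_low hE hE' hk T hT hmo1 hmo2 hne'
  have hlow : (∑ p ∈ T, f p) * L ≤
      ∑ p ∈ T, ((min ((Vl e w).factorization p) ((Vl e w').factorization p) : ℕ) : ℝ) * Real.log p := by
    rw [sum_mul]
    refine sum_le_sum fun p hp => ?_
    rcases min_cases ((Vl e w).factorization p) ((Vl e w').factorization p) with ⟨e5, _⟩ | ⟨e5, _⟩
    · rw [e5]
      exact h1 p hp
    · rw [e5]
      exact (mul_le_mul_of_nonneg_left hLL (hf p hp)).trans (h2 p hp)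
  have hα0 : (al k w.1 : ℤ) ≠ 0 := by exact_mod_cast (al_pos k w.1).ne'
  have hβ0 : be e k w.2 ≠ 0 := by
    have h5 : (al k w.2 : ℤ) ≠ 0 := by exact_mod_cast (al_pos k w.2).ne'
    unfold be
    cases e
    · simpa using h5
    · simpa using h5
  have hu1 : ∀ {z : ℕ × ℕ}, Gd e z → |(((al k z.1 : ℤ) * (rt k z.1 : ℤ) ^ k : ℤ) : ℝ)| ≤ Ht e z := by
    intro z hz
    have e1 : (al k z.1 : ℤ) * (rt k z.1 : ℤ) ^ k = z.1 := by exact_mod_cast al_mul k z.1 hz.p1.ne'
    rw [e1]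
    have : ((z.1 : ℕ) : ℝ) ≤ Ht e z := by exact_mod_cast hz.le1
    push_cast
    rw [abs_of_nonneg (by positivity)]
    exact this
  have hv1 : ∀ {z : ℕ × ℕ}, Gd e z → |((be e k z.2 * (rt k z.2 : ℤ) ^ k : ℤ) : ℝ)| ≤ Ht e z := by
    intro z hz
    have e1 : (al k z.2 : ℤ) * (rt k z.2 : ℤ) ^ k = z.2 := by exact_mod_cast al_mul k z.2 hz.p2.ne'
    have e2 : |be e k z.2 * (rt k z.2 : ℤ) ^ k| = (z.2 : ℤ) := by
      unfold be
      cases e
      · simp only [Bool.false_eq_true, if_false]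
        rw [e1]
        simp
      · simp only [if_true]
        rw [neg_mul, abs_neg, e1]
        simp
    have e3 : |((be e k z.2 * (rt k z.2 : ℤ) ^ k : ℤ) : ℝ)| = (z.2 : ℝ) := by
      rw [← Int.cast_abs, e2]
      simp
    rw [e3]
    exact_mod_cast hz.le2
  have hu' : |(((al k w.1 : ℤ) * (rt k w'.1 : ℤ) ^ k : ℤ) : ℝ)| ≤ Ht e w' := by
    have := hu1 h'
    rwa [← hα] at this
  have hv' : |((be e k w.2 * (rt k w'.2 : ℤ) ^ k : ℤ) : ℝ)| ≤ Ht e w' := by
    have := hv1 h'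
    rwa [hβ'] at this
  have up1 := gap_up1 hE hE' hk hα0 hβ0 (hu1 h) (hv1 h) hu' hv' hne'
  have hfin : Real.log |(((rt k w.1 : ℤ) * (rt k w'.2 : ℤ) - (rt k w'.1 : ℤ) * (rt k w.2 : ℤ) : ℤ) : ℝ)| ≤
      (L + L') / k - g * L := by
    rcases le_or_gt (g * L) 0 with hgl | hgl
    · linarith
    · cases e
      · have hgL' : g * L ≤ g * L' := mul_le_mul_of_nonneg_left hLL hg
        have e1 : ∀ {z : ℕ × ℕ}, g * L ≤ gg false z →
            Real.log (Vl false z : ℝ) + g * L ≤ Real.log (z.2 : ℝ) := by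
          intro z hz
          unfold gg at hz
          simp only [Bool.false_eq_true, if_false] at hz
          rcases max_cases (0 : ℝ) (Real.log z.2 - Real.log (Vl false z)) with ⟨e5, _⟩ | ⟨e5, _⟩
          · rw [e5] at hz
            linarith
          · rw [e5] at hz
            linarith
        have e2 := e1 h3
        have e3 := e1 (hgL'.trans h4)
        have e4 : ∀ {z : ℕ × ℕ}, Gd false z → ((be false k z.2 * (rt k z.2 : ℤ) ^ k : ℤ) : ℝ) = (z.2 : ℝ) := by
          intro z hz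
          have e5 : (al k z.2 : ℤ) * (rt k z.2 : ℤ) ^ k = z.2 := by exact_mod_cast al_mul k z.2 hz.p2.ne'
          unfold be
          simp only [Bool.false_eq_true, if_false]
          rw [e5]
          simp
        have e5 : ((be false k w.2 * (rt k w'.2 : ℤ) ^ k : ℤ) : ℝ) = (w'.2 : ℝ) := by
          rw [← hβ']
          exact e4 h'
        have up2 := gap_up2 hE hE' hk (by exact_mod_cast al_pos k w.1)
          (by
            unfold be
            simp only [Bool.false_eq_true, if_false]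
            exact_mod_cast al_pos k w.2) h.vl_pos h'.vl_pos (g := g * L)
          (by rw [e4 h]; exact e2) (by rw [e5]; exact e3) hne'
        have up3 := (gap_up hE hE' hk hα0 hβ0 (hu1 h) (hv1 h) hu' hv').1
        linarith
      · exfalso
        have h5 : g * L ≤ 0 := by
          have := h3
          unfold gg at this
          simpa using this
        linarith
  linarith

end Pool.MP_a95293_nt.TP
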